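import Pool.Agent.Work.MP_bc8e1e_an.Freq

set_option autoImplicit false

open MeasureTheory Filter Topology

namespace Pool.Agent.Work.BCF

lemma gauss_int (b : ℝ) : ∫ ξ : ℝ, Real.exp (-b * ξ ^ 2) = Real.sqrt (Real.pi / b) :=
  integral_gaussian b

lemma gauss_integrable (b : ℝ) (hb : 0 < b) : Integrable (fun ξ : ℝ => Real.exp (-b * ξ ^ 2)) :=
  integrable_exp_neg_mul_sq hb

lemma gauss_pt (e ξ : ℝ) (he : 0 < e) (hξ : |ξ| ≤ 1 / e) :
    1 ≤ 3 * Real.exp (-(e ^ 2) * ξ ^ 2) := by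
  have h1 : e ^ 2 * ξ ^ 2 ≤ 1 := by
    have h2 : e * |ξ| ≤ 1 := by
      rw [le_div_iff₀ he] at hξ; linarith
    have h3 : (e * |ξ|) ^ 2 ≤ 1 := pow_le_one₀ (by positivity) h2
    rw [mul_pow, sq_abs] at h3
    exact h3
  have h4 : Real.exp (-1) ≤ Real.exp (-(e ^ 2) * ξ ^ 2) := by
    apply Real.exp_le_exp.mpr; linarith
  have h5 : 1 / 3 ≤ Real.exp (-1) := by
    rw [Real.exp_neg, one_div]
    apply inv_anti₀ (Real.exp_pos _)
    exact Real.exp_one_lt_three.le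
  linarith

lemma exp_neg_mul_sq_le_one (b ξ : ℝ) (hb : 0 ≤ b) : Real.exp (-b * ξ ^ 2) ≤ 1 := by
  apply Real.exp_le_one_iff.mpr
  have : 0 ≤ b * ξ ^ 2 := by positivity
  linarith

lemma exp_anti (b c ξ : ℝ) (hbc : b ≤ c) : Real.exp (-c * ξ ^ 2) ≤ Real.exp (-b * ξ ^ 2) := by
  apply Real.exp_le_exp.mpr
  nlinarith [sq_nonneg ξ]

section
variable {l : ℝ} {μ : Measure ℝ} [IsProbabilityMeasure μ]

lemma mm_pt (h : SS l μ) (hl : 0 < l) (hl1 : l < 1) (hl2 : 1 / 2 ≤ l ^ 2)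
    (V : ℝ) (hV : V * (1 - l ^ 2) = 1) (B : ℝ)
    (hB : ∀ x ξ, 1 / (1 - l) ≤ |ξ| → |mm μ x ξ| ≤ B) (r0 r : ℝ) (hr0 : 0 < r0) (hr : r0 ≤ r)
    (x ξ : ℝ) :
    |mm μ x ξ * Real.exp (-(r ^ 2 / 2) * ξ ^ 2)|
      ≤ Real.exp (-(V / 2) * ξ ^ 2)
        + 3 * Real.exp (-(V / 4)) * Real.exp (-((1 - l) ^ 2) * ξ ^ 2)
        + B * Real.exp (-(r0 ^ 2 / 2) * ξ ^ 2) := by
  have he : 0 < 1 - l := by linarith
  have hB0 : 0 ≤ B := le_trans (abs_nonneg _) (hB 0 (1 / (1 - l)) (le_abs_self _))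
  have p1 := Real.exp_pos (-(V / 2) * ξ ^ 2)
  have p2 := Real.exp_pos (-((1 - l) ^ 2) * ξ ^ 2)
  have p3 := Real.exp_pos (-(r0 ^ 2 / 2) * ξ ^ 2)
  have p4 := Real.exp_pos (-(V / 4))
  have p5 := Real.exp_pos (-(r ^ 2 / 2) * ξ ^ 2)
  have q1 := exp_neg_mul_sq_le_one (r ^ 2 / 2) ξ (by positivity)
  have q2 : Real.exp (-(r ^ 2 / 2) * ξ ^ 2) ≤ Real.exp (-(r0 ^ 2 / 2) * ξ ^ 2) := by
    apply exp_anti
    have : r0 ^ 2 ≤ r ^ 2 := pow_le_pow_left₀ hr0.le hr 2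
    linarith
  have t2 : 0 ≤ 3 * Real.exp (-(V / 4)) * Real.exp (-((1 - l) ^ 2) * ξ ^ 2) := by positivity
  have t3 : 0 ≤ B * Real.exp (-(r0 ^ 2 / 2) * ξ ^ 2) := by positivity
  rw [abs_mul, abs_of_pos p5]
  have hm := abs_nonneg (mm μ x ξ)
  rcases le_total |ξ| 1 with h1 | h1
  · have h2 := mm_small_abs h hl hl1 V hV x ξ h1
    have e1 : Real.exp (-(V * (ξ ^ 2 / 2))) = Real.exp (-(V / 2) * ξ ^ 2) := by
      congr 1; ring
    rw [e1] at h2
    have : |mm μ x ξ| * Real.exp (-(r ^ 2 / 2) * ξ ^ 2) ≤ |mm μ x ξ| * 1 :=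
      mul_le_mul_of_nonneg_left q1 hm
    linarith
  · rcases le_total |ξ| (1 / (1 - l)) with h2 | h2
    · have h3 := mm_mid h hl hl1 hl2 V hV x ξ h1
      have h4 := gauss_pt (1 - l) ξ he h2
      have : |mm μ x ξ| * Real.exp (-(r ^ 2 / 2) * ξ ^ 2) ≤ |mm μ x ξ| * 1 :=
        mul_le_mul_of_nonneg_left q1 hm
      have h5 : Real.exp (-(V / 4)) * 1
          ≤ Real.exp (-(V / 4)) * (3 * Real.exp (-((1 - l) ^ 2) * ξ ^ 2)) :=
        mul_le_mul_of_nonneg_left h4 p4.le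
      linarith
    · have h3 := hB x ξ h2
      have h4 : |mm μ x ξ| * Real.exp (-(r ^ 2 / 2) * ξ ^ 2)
          ≤ B * Real.exp (-(r0 ^ 2 / 2) * ξ ^ 2) := mul_le_mul h3 q2 p5.le hB0
      linarith

lemma PP_upper (h : SS l μ) (hl : 0 < l) (hl1 : l < 1) (hl2 : 1 / 2 ≤ l ^ 2)
    (V : ℝ) (hVpos : 0 < V) (hV : V * (1 - l ^ 2) = 1) (B : ℝ)
    (hB : ∀ x ξ, 1 / (1 - l) ≤ |ξ| → |mm μ x ξ| ≤ B) (r0 r : ℝ) (hr0 : 0 < r0) (hr : r0 ≤ r)
    (x : ℝ) :
    PP μ r x ≤ Real.sqrt (Real.pi / (V / 2))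
        + 3 * Real.exp (-(V / 4)) * Real.sqrt (Real.pi / ((1 - l) ^ 2))
        + B * Real.sqrt (Real.pi / (r0 ^ 2 / 2)) := by
  have he : 0 < 1 - l := by linarith
  have hrpos : 0 < r := lt_of_lt_of_le hr0 hr
  rw [PP_eq r x hrpos]
  refine (le_abs_self _).trans ?_
  rw [← Real.norm_eq_abs]
  have i1 := gauss_integrable (V / 2) (by positivity)
  have i2 := gauss_integrable ((1 - l) ^ 2) (by positivity)
  have i3 := gauss_integrable (r0 ^ 2 / 2) (by positivity)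
  have i12 := i1.add (i2.const_mul (3 * Real.exp (-(V / 4))))
  have i123 := i12.add (i3.const_mul B)
  refine (norm_integral_le_of_norm_le i123 (ae_of_all _ fun ξ => ?_)).trans (le_of_eq ?_)
  · rw [Real.norm_eq_abs]
    exact mm_pt h hl hl1 hl2 V hV B hB r0 r hr0 hr x ξ
  · have e1 : ∫ ξ : ℝ, ((((fun ξ : ℝ => Real.exp (-(V / 2) * ξ ^ 2))
        + (fun ξ : ℝ => 3 * Real.exp (-(V / 4)) * Real.exp (-((1 - l) ^ 2) * ξ ^ 2)))
        + (fun ξ : ℝ => B * Real.exp (-(r0 ^ 2 / 2) * ξ ^ 2))) : ℝ → ℝ) ξ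
        = (∫ ξ : ℝ, Real.exp (-(V / 2) * ξ ^ 2))
          + (∫ ξ : ℝ, 3 * Real.exp (-(V / 4)) * Real.exp (-((1 - l) ^ 2) * ξ ^ 2))
          + ∫ ξ : ℝ, B * Real.exp (-(r0 ^ 2 / 2) * ξ ^ 2) := by
      rw [integral_add' i12 (i3.const_mul B), integral_add' i1 (i2.const_mul _)]
    rw [e1, integral_const_mul, integral_const_mul, gauss_int, gauss_int, gauss_int]

lemma PP_step (hl : 0 < l) (hl1 : l < 1) (B : ℝ)
    (hB : ∀ x ξ, 1 / (1 - l) ≤ |ξ| → |mm μ x ξ| ≤ B) (r : ℝ) (hr : 0 < r) (x : ℝ) :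
    |PP μ (l * r) x - PP μ r x| ≤
      (3 * (r ^ 2 / (2 * (1 - l) ^ 2))) * Real.sqrt (Real.pi / ((1 - l) ^ 2))
        + B * Real.sqrt (Real.pi / ((l * r) ^ 2 / 2)) := by
  have he : 0 < 1 - l := by linarith
  have hlr : 0 < l * r := by positivity
  have hB0 : 0 ≤ B := le_trans (abs_nonneg _) (hB 0 (1 / (1 - l)) (le_abs_self _))
  rw [PP_eq r x hr, PP_eq (l * r) x hlr,
    ← integral_sub (mm_gauss_integrable (l * r) x hlr) (mm_gauss_integrable r x hr)]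
  rw [← Real.norm_eq_abs]
  have i2 := gauss_integrable ((1 - l) ^ 2) (by positivity)
  have i3 := gauss_integrable ((l * r) ^ 2 / 2) (by positivity)
  have i23 := (i2.const_mul (3 * (r ^ 2 / (2 * (1 - l) ^ 2)))).add (i3.const_mul B)
  refine (norm_integral_le_of_norm_le i23 (ae_of_all _ fun ξ => ?_)).trans (le_of_eq ?_)
  · rw [Real.norm_eq_abs]
    have hlr2 : (l * r) ^ 2 / 2 ≤ r ^ 2 / 2 := by
      have : (l * r) ^ 2 ≤ r ^ 2 := pow_le_pow_left₀ hlr.le (by nlinarith) 2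
      linarith
    have a1 := exp_anti ((l * r) ^ 2 / 2) (r ^ 2 / 2) ξ hlr2
    have a2 := exp_neg_mul_sq_le_one ((l * r) ^ 2 / 2) ξ (by positivity)
    have a3 := Real.add_one_le_exp (-(r ^ 2 / 2) * ξ ^ 2)
    have a4 := Real.exp_pos (-(r ^ 2 / 2) * ξ ^ 2)
    set E1 := Real.exp (-((l * r) ^ 2 / 2) * ξ ^ 2)
    set E2 := Real.exp (-(r ^ 2 / 2) * ξ ^ 2)
    have e1 : mm μ x ξ * E1 - mm μ x ξ * E2 = mm μ x ξ * (E1 - E2) := by ring
    rw [e1, abs_mul, abs_of_nonneg (by linarith : 0 ≤ E1 - E2)]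
    have hm := abs_nonneg (mm μ x ξ)
    simp only [Pi.add_apply]
    rcases le_total |ξ| (1 / (1 - l)) with h2 | h2
    · have h3 := mm_abs_le_one (μ := μ) x ξ
      have h4 := gauss_pt (1 - l) ξ he h2
      have h5 : E1 - E2 ≤ (r ^ 2 / 2) * ξ ^ 2 := by linarith
      have h6 : ξ ^ 2 ≤ 1 / (1 - l) ^ 2 := by
        rw [← sq_abs, ← one_div_pow]
        exact pow_le_pow_left₀ (abs_nonneg _) h2 2
      have h7 : (r ^ 2 / 2) * ξ ^ 2 ≤ r ^ 2 / (2 * (1 - l) ^ 2) := by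
        calc (r ^ 2 / 2) * ξ ^ 2 ≤ (r ^ 2 / 2) * (1 / (1 - l) ^ 2) :=
              mul_le_mul_of_nonneg_left h6 (by positivity)
          _ = r ^ 2 / (2 * (1 - l) ^ 2) := by field_simp
      have h8 : |mm μ x ξ| * (E1 - E2) ≤ 1 * (r ^ 2 / (2 * (1 - l) ^ 2)) :=
        mul_le_mul h3 (h5.trans h7) (by linarith) (by norm_num)
      have h9 : (r ^ 2 / (2 * (1 - l) ^ 2)) * 1
          ≤ (r ^ 2 / (2 * (1 - l) ^ 2)) * (3 * Real.exp (-((1 - l) ^ 2) * ξ ^ 2)) :=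
        mul_le_mul_of_nonneg_left h4 (by positivity)
      have h10 : 0 ≤ B * E1 := by positivity
      linarith
    · have h3 := hB x ξ h2
      have h4 : |mm μ x ξ| * (E1 - E2) ≤ B * E1 := by
        apply mul_le_mul h3 (by linarith) (by linarith) hB0
      have h5 : 0 ≤ 3 * (r ^ 2 / (2 * (1 - l) ^ 2)) * Real.exp (-((1 - l) ^ 2) * ξ ^ 2) := by
        positivity
      linarith
  · rw [integral_add' (i2.const_mul _) (i3.const_mul B), integral_const_mul, integral_const_mul,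
      gauss_int, gauss_int]

lemma PP_lower (h : SS l μ) (hl : 0 < l) (hl1 : l < 1) (hl2 : 1 / 2 ≤ l ^ 2)
    (V : ℝ) (hVpos : 0 < V) (hV : V * (1 - l ^ 2) = 1) (B : ℝ)
    (hB : ∀ x ξ, 1 / (1 - l) ≤ |ξ| → |mm μ x ξ| ≤ B) (r : ℝ) (hr : 0 < r)
    (hrV : r ^ 2 * V ≤ 1) (x : ℝ) :
    |PP μ r x - Real.sqrt (Real.pi / (V / 2)) * Real.exp (-x ^ 2 / (4 * (V / 2)))| ≤
      (5 / V + Real.exp (-(V / 4))) * Real.sqrt (Real.pi / (V / 4))
        + 3 * Real.exp (-(V / 4)) * Real.sqrt (Real.pi / ((1 - l) ^ 2))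
        + B * Real.sqrt (Real.pi / (r ^ 2 / 2)) := by
  have he : 0 < 1 - l := by linarith
  have hB0 : 0 ≤ B := le_trans (abs_nonneg _) (hB 0 (1 / (1 - l)) (le_abs_self _))
  have i0 : Integrable (fun ξ : ℝ => Real.cos (x * ξ) * Real.exp (-(V / 2) * ξ ^ 2)) := by
    refine Integrable.mono' (gauss_integrable (V / 2) (by positivity))
      (Continuous.aestronglyMeasurable (by fun_prop)) (ae_of_all _ fun ξ => ?_)
    rw [Real.norm_eq_abs, abs_mul, abs_of_pos (Real.exp_pos _)]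
    have := Real.abs_cos_le_one (x * ξ)
    nlinarith [Real.exp_pos (-(V / 2) * ξ ^ 2)]
  rw [PP_eq r x hr, ← gauss_cos (V / 2) (by positivity) x,
    ← integral_sub (mm_gauss_integrable r x hr) i0]
  rw [← Real.norm_eq_abs]
  have i1 := gauss_integrable (V / 4) (by positivity)
  have i2 := gauss_integrable ((1 - l) ^ 2) (by positivity)
  have i3 := gauss_integrable (r ^ 2 / 2) (by positivity)
  have i12 := (i1.const_mul (5 / V + Real.exp (-(V / 4)))).add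
    (i2.const_mul (3 * Real.exp (-(V / 4))))
  have i123 := i12.add (i3.const_mul B)
  refine (norm_integral_le_of_norm_le i123 (ae_of_all _ fun ξ => ?_)).trans (le_of_eq ?_)
  · rw [Real.norm_eq_abs]
    simp only [Pi.add_apply]
    have p1 := Real.exp_pos (-(V / 4) * ξ ^ 2)
    have p2 := Real.exp_pos (-((1 - l) ^ 2) * ξ ^ 2)
    have p3 := Real.exp_pos (-(r ^ 2 / 2) * ξ ^ 2)
    have p4 := Real.exp_pos (-(V / 4))
    have q1 := exp_neg_mul_sq_le_one (r ^ 2 / 2) ξ (by positivity)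
    have t1 : 0 ≤ Real.exp (-(V / 4)) * Real.exp (-(V / 4) * ξ ^ 2) := by positivity
    have t1' : 0 ≤ (5 / V) * Real.exp (-(V / 4) * ξ ^ 2) := by positivity
    have t2 : 0 ≤ 3 * Real.exp (-(V / 4)) * Real.exp (-((1 - l) ^ 2) * ξ ^ 2) := by positivity
    have t3 : 0 ≤ B * Real.exp (-(r ^ 2 / 2) * ξ ^ 2) := by positivity
    rw [add_mul]
    have hm := abs_nonneg (mm μ x ξ)
    have htri : |mm μ x ξ * Real.exp (-(r ^ 2 / 2) * ξ ^ 2)
        - Real.cos (x * ξ) * Real.exp (-(V / 2) * ξ ^ 2)|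
        ≤ |mm μ x ξ| * Real.exp (-(r ^ 2 / 2) * ξ ^ 2) + Real.exp (-(V / 2) * ξ ^ 2) := by
      refine (abs_sub _ _).trans ?_
      rw [abs_mul, abs_mul, abs_of_pos p3, abs_of_pos (Real.exp_pos (-(V / 2) * ξ ^ 2))]
      have := Real.abs_cos_le_one (x * ξ)
      nlinarith [Real.exp_pos (-(V / 2) * ξ ^ 2)]
    rcases le_total |ξ| 1 with h1 | h1
    · have h2 := mm_small_abs h hl hl1 V hV x ξ h1
      have h3 := mm_small_diff h hl hl1 V hV x ξ h1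
      have e1 : Real.exp (-(V * (ξ ^ 2 / 2))) = Real.exp (-(V / 2) * ξ ^ 2) := by
        congr 1; ring
      rw [e1] at h2 h3
      have e2 : mm μ x ξ * Real.exp (-(r ^ 2 / 2) * ξ ^ 2)
          - Real.cos (x * ξ) * Real.exp (-(V / 2) * ξ ^ 2)
          = (mm μ x ξ - Real.cos (x * ξ) * Real.exp (-(V / 2) * ξ ^ 2))
            + mm μ x ξ * (Real.exp (-(r ^ 2 / 2) * ξ ^ 2) - 1) := by ring
      rw [e2]
      have h4 : |mm μ x ξ * (Real.exp (-(r ^ 2 / 2) * ξ ^ 2) - 1)|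
          ≤ (1 / V) * Real.exp (-(V / 4) * ξ ^ 2) := by
        rw [abs_mul, abs_of_nonpos (by linarith : Real.exp (-(r ^ 2 / 2) * ξ ^ 2) - 1 ≤ 0)]
        have a3 := Real.add_one_le_exp (-(r ^ 2 / 2) * ξ ^ 2)
        have a4 : ξ ^ 2 ≤ 1 := by
          rw [← sq_abs]; exact pow_le_one₀ (abs_nonneg _) h1
        have a5 : -(Real.exp (-(r ^ 2 / 2) * ξ ^ 2) - 1) ≤ 1 / V := by
          have b1 : (r ^ 2 / 2) * ξ ^ 2 ≤ r ^ 2 / 2 := by nlinarith [sq_nonneg r]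
          have b2 : r ^ 2 ≤ 1 / V := by
            rw [le_div_iff₀ hVpos]; exact hrV
          have b3 : 0 ≤ r ^ 2 := sq_nonneg r
          linarith
        have a6 : |mm μ x ξ| ≤ Real.exp (-(V / 4) * ξ ^ 2) := by
          refine h2.trans ?_
          apply exp_anti; linarith
        calc |mm μ x ξ| * -(Real.exp (-(r ^ 2 / 2) * ξ ^ 2) - 1)
            ≤ Real.exp (-(V / 4) * ξ ^ 2) * (1 / V) :=
              mul_le_mul a6 a5 (by linarith) p1.le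
          _ = _ := by ring
      have h5 : (4 / V) * Real.exp (-(V / 4) * ξ ^ 2) + (1 / V) * Real.exp (-(V / 4) * ξ ^ 2)
          = (5 / V) * Real.exp (-(V / 4) * ξ ^ 2) := by ring
      have h6 := abs_add_le (mm μ x ξ - Real.cos (x * ξ) * Real.exp (-(V / 2) * ξ ^ 2))
        (mm μ x ξ * (Real.exp (-(r ^ 2 / 2) * ξ ^ 2) - 1))
      linarith
    · have h7 : Real.exp (-(V / 2) * ξ ^ 2)
          ≤ Real.exp (-(V / 4)) * Real.exp (-(V / 4) * ξ ^ 2) := by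
        rw [← Real.exp_add]
        apply Real.exp_le_exp.mpr
        have : 1 ≤ ξ ^ 2 := by
          rw [← sq_abs]; nlinarith
        nlinarith
      rcases le_total |ξ| (1 / (1 - l)) with h2 | h2
      · have h3 := mm_mid h hl hl1 hl2 V hV x ξ h1
        have h4 := gauss_pt (1 - l) ξ he h2
        have h8 : |mm μ x ξ| * Real.exp (-(r ^ 2 / 2) * ξ ^ 2) ≤ |mm μ x ξ| * 1 :=
          mul_le_mul_of_nonneg_left q1 hm
        have h5 : Real.exp (-(V / 4)) * 1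
            ≤ Real.exp (-(V / 4)) * (3 * Real.exp (-((1 - l) ^ 2) * ξ ^ 2)) :=
          mul_le_mul_of_nonneg_left h4 p4.le
        linarith
      · have h3 := hB x ξ h2
        have h4 : |mm μ x ξ| * Real.exp (-(r ^ 2 / 2) * ξ ^ 2)
            ≤ B * Real.exp (-(r ^ 2 / 2) * ξ ^ 2) := mul_le_mul_of_nonneg_right h3 p3.le
        linarith
  · rw [integral_add' i12 (i3.const_mul B), integral_add' (i1.const_mul _) (i2.const_mul _),
      integral_const_mul, integral_const_mul, integral_const_mul, gauss_int, gauss_int, gauss_int]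

end

end Pool.Agent.Work.BCF
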