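import Mathlib

set_option autoImplicit false

namespace Pool.Agent.Work.BCF

lemma exp_le_one_sub (z : ℝ) (hz0 : 0 ≤ z) (hz1 : z ≤ 1 / 2) :
    Real.exp (-(z + z ^ 2)) ≤ 1 - z := by
  have h2 := Real.quadratic_le_exp_of_nonneg (x := z + z ^ 2) (by positivity)
  rw [Real.exp_neg]
  have h3 : 0 < Real.exp (z + z ^ 2) := Real.exp_pos _
  rw [inv_le_comm₀ h3 (by linarith)]
  refine le_trans ?_ h2
  rw [inv_le_iff_one_le_mul₀' (by linarith)]
  have h4 : (1 - z) * (1 + (z + z ^ 2) + (z + z ^ 2) ^ 2 / 2)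
      = 1 + z ^ 2 / 2 * (1 - z - z ^ 2 - z ^ 3) := by ring
  rw [h4]
  have h5 : 0 ≤ 1 - z - z ^ 2 - z ^ 3 := by
    have a1 : z ^ 2 ≤ 1 / 4 := by nlinarith
    have a2 : z ^ 3 ≤ 1 / 8 := by
      have : z ^ 3 = z ^ 2 * z := by ring
      rw [this]; nlinarith
    linarith
  have h6 : 0 ≤ z ^ 2 / 2 * (1 - z - z ^ 2 - z ^ 3) := by positivity
  linarith

/-- The Gaussian barrier. -/
noncomputable def chi (l x : ℝ) : ℝ := Real.exp (-(l ^ 2 * (1 - l ^ 2) / 4 * x ^ 2))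

lemma chi_pos (l x : ℝ) : 0 < chi l x := Real.exp_pos _

lemma chi_T (l : ℝ) (hl : 0 < l) (hl1 : l < 1) (hu : 1 - l ^ 2 ≤ 1 / 2) (x : ℝ) :
    (chi l ((x - 1) / l) + chi l ((x + 1) / l)) / (2 * l)
      ≤ Real.exp ((1 - l ^ 2) / 4 + (1 - l ^ 2) ^ 2 / 2 - (1 - l ^ 2) ^ 2 * x ^ 2 / 8) * chi l x := by
  set u : ℝ := 1 - l ^ 2 with hudef
  have hu0 : 0 < u := by rw [hudef]; nlinarith
  have e1 : chi l ((x - 1) / l) = Real.exp (-(u / 4) * (x ^ 2 + 1)) * Real.exp (u * x / 2) := by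
    unfold chi
    rw [← Real.exp_add, ← hudef]
    congr 1
    field_simp
    ring
  have e2 : chi l ((x + 1) / l) = Real.exp (-(u / 4) * (x ^ 2 + 1)) * Real.exp (-(u * x / 2)) := by
    unfold chi
    rw [← Real.exp_add, ← hudef]
    congr 1
    field_simp
    ring
  have e3 : (chi l ((x - 1) / l) + chi l ((x + 1) / l)) / (2 * l)
      = (1 / l) * (Real.exp (-(u / 4) * (x ^ 2 + 1)) * Real.cosh (u * x / 2)) := by
    rw [e1, e2, Real.cosh_eq]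
    field_simp
  rw [e3]
  have h1 : Real.cosh (u * x / 2) ≤ Real.exp ((u * x / 2) ^ 2 / 2) := Real.cosh_le_exp_half_sq _
  have h2 : 1 / l ≤ Real.exp ((u + u ^ 2) / 2) := by
    have h3 := exp_le_one_sub u hu0.le hu
    have h4 : Real.exp (-((u + u ^ 2) / 2)) ^ 2 ≤ l ^ 2 := by
      have e4 : Real.exp (-((u + u ^ 2) / 2)) ^ 2 = Real.exp (-(u + u ^ 2)) := by
        rw [← Real.exp_nat_mul]; congr 1; push_cast; ring
      rw [e4]
      have : 1 - u = l ^ 2 := by rw [hudef]; ring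
      linarith
    have h5 : Real.exp (-((u + u ^ 2) / 2)) ≤ l :=
      le_of_sq_le_sq h4 hl.le
    rw [one_div, inv_le_comm₀ hl (Real.exp_pos _), ← Real.exp_neg]
    exact h5
  have h6 : Real.exp (-(u / 4) * (x ^ 2 + 1)) * Real.cosh (u * x / 2)
      ≤ Real.exp (-(u / 4) * (x ^ 2 + 1)) * Real.exp ((u * x / 2) ^ 2 / 2) :=
    mul_le_mul_of_nonneg_left h1 (Real.exp_pos _).le
  calc (1 / l) * (Real.exp (-(u / 4) * (x ^ 2 + 1)) * Real.cosh (u * x / 2))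
      ≤ Real.exp ((u + u ^ 2) / 2)
        * (Real.exp (-(u / 4) * (x ^ 2 + 1)) * Real.exp ((u * x / 2) ^ 2 / 2)) :=
        mul_le_mul h2 h6 (by positivity) (Real.exp_pos _).le
    _ = Real.exp (u / 4 + u ^ 2 / 2 - u ^ 2 * x ^ 2 / 8) * chi l x := by
        unfold chi
        rw [← Real.exp_add, ← Real.exp_add, ← Real.exp_add, ← hudef]
        congr 1
        have : l ^ 2 = 1 - u := by rw [hudef]; ring
        rw [this]
        ring

lemma chi_outer (l : ℝ) (hl : 0 < l) (hl1 : l < 1) (hu : 1 - l ^ 2 ≤ 1 / 4) (x : ℝ)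
    (hx : 4 ≤ (1 - l ^ 2) * x ^ 2) :
    (chi l ((x - 1) / l) + chi l ((x + 1) / l)) / (2 * l)
      ≤ Real.exp (-((1 - l ^ 2) / 8)) * chi l x := by
  refine (chi_T l hl hl1 (by linarith) x).trans ?_
  apply mul_le_mul_of_nonneg_right _ (chi_pos l x).le
  apply Real.exp_le_exp.mpr
  have hu0 : 0 < 1 - l ^ 2 := by nlinarith
  nlinarith

lemma chi_all (l : ℝ) (hl : 0 < l) (hl1 : l < 1) (hu : 1 - l ^ 2 ≤ 1 / 4) (x : ℝ) :
    (chi l ((x - 1) / l) + chi l ((x + 1) / l)) / (2 * l) ≤ 2 := by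
  refine (chi_T l hl hl1 (by linarith) x).trans ?_
  have hu0 : 0 < 1 - l ^ 2 := by nlinarith
  have h1 : chi l x ≤ 1 := by
    unfold chi
    apply Real.exp_le_one_iff.mpr
    have : 0 ≤ l ^ 2 * (1 - l ^ 2) / 4 * x ^ 2 := by positivity
    linarith
  have h2 : Real.exp ((1 - l ^ 2) / 4 + (1 - l ^ 2) ^ 2 / 2 - (1 - l ^ 2) ^ 2 * x ^ 2 / 8)
      ≤ 2 := by
    have h3 : (1 - l ^ 2) / 4 + (1 - l ^ 2) ^ 2 / 2 - (1 - l ^ 2) ^ 2 * x ^ 2 / 8 ≤ 1 / 2 := by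
      have : 0 ≤ (1 - l ^ 2) ^ 2 * x ^ 2 / 8 := by positivity
      nlinarith
    have h4 : Real.exp (1 / 2) ≤ 2 := by
      have h5 : Real.exp (1 / 2) ^ 2 ≤ 2 ^ 2 := by
        rw [← Real.exp_nat_mul]
        have : ((2 : ℕ) : ℝ) * (1 / 2) = 1 := by norm_num
        rw [this]
        linarith [Real.exp_one_lt_three]
      exact le_of_sq_le_sq h5 (by norm_num)
    exact (Real.exp_le_exp.mpr h3).trans h4
  have := chi_pos l x
  have h6 := Real.exp_pos ((1 - l ^ 2) / 4 + (1 - l ^ 2) ^ 2 / 2 - (1 - l ^ 2) ^ 2 * x ^ 2 / 8)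
  nlinarith

lemma chi_lower (l : ℝ) (hl : 0 < l) (hl1 : l < 1) (x : ℝ) (hx : |x| ≤ 2 / (1 - l)) :
    Real.exp (-(2 / (1 - l))) ≤ chi l x := by
  unfold chi
  apply Real.exp_le_exp.mpr
  rw [neg_le_neg_iff]
  have he : 0 < 1 - l := by linarith
  have h1 : x ^ 2 ≤ (2 / (1 - l)) ^ 2 := by
    rw [← sq_abs x]
    exact pow_le_pow_left₀ (abs_nonneg _) hx 2
  have h2 : l ^ 2 * (1 - l ^ 2) / 4 ≤ (1 - l) / 2 := by
    have : 1 - l ^ 2 = (1 - l) * (1 + l) := by ring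
    rw [this]
    have h3 : l ^ 2 * (1 + l) ≤ 2 := by nlinarith [sq_nonneg l]
    nlinarith
  have h0 : 0 ≤ l ^ 2 * (1 - l ^ 2) / 4 := by
    have : 0 < 1 - l ^ 2 := by nlinarith
    positivity
  calc l ^ 2 * (1 - l ^ 2) / 4 * x ^ 2 ≤ ((1 - l) / 2) * (2 / (1 - l)) ^ 2 :=
        mul_le_mul h2 h1 (sq_nonneg _) (by positivity)
    _ = 2 / (1 - l) := by field_simp

end Pool.Agent.Work.BCF
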