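import Pool.Agent.Work.MP_bc8e1e_an.SelfSim

set_option autoImplicit false

open MeasureTheory Filter Topology

namespace Pool.Agent.Work.BCF

/-- Real form of the Fourier transform of a Gaussian. -/
lemma gauss_cos (b : ℝ) (hb : 0 < b) (t : ℝ) :
    ∫ ξ : ℝ, Real.cos (t * ξ) * Real.exp (-b * ξ ^ 2)
      = Real.sqrt (Real.pi / b) * Real.exp (-t ^ 2 / (4 * b)) := by
  have h := fourierIntegral_gaussian (b := (b : ℂ)) (by simpa using hb) (t : ℂ)
  have hre := congrArg Complex.re h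
  have hint : Integrable (fun x : ℝ =>
      Complex.exp (Complex.I * (t : ℂ) * (x : ℂ)) * Complex.exp (-(b : ℂ) * (x : ℂ) ^ 2)) := by
    have h1 := integrable_cexp_quadratic (b := (b : ℂ)) (by simpa using hb)
      (Complex.I * (t : ℂ)) 0
    refine h1.congr (ae_of_all _ fun x => ?_)
    simp only [add_zero]
    rw [← Complex.exp_add]
    congr 1
    ring
  have h2 : (∫ x : ℝ, Complex.exp (Complex.I * (t : ℂ) * (x : ℂ))
      * Complex.exp (-(b : ℂ) * (x : ℂ) ^ 2)).re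
      = ∫ x : ℝ, (Complex.exp (Complex.I * (t : ℂ) * (x : ℂ))
      * Complex.exp (-(b : ℂ) * (x : ℂ) ^ 2)).re := by
    exact (integral_re hint).symm
  rw [h2] at hre
  have h3 : ∀ x : ℝ, (Complex.exp (Complex.I * (t : ℂ) * (x : ℂ))
      * Complex.exp (-(b : ℂ) * (x : ℂ) ^ 2)).re
      = Real.cos (t * x) * Real.exp (-b * x ^ 2) := by
    intro x
    have e1 : Complex.exp (-(b : ℂ) * (x : ℂ) ^ 2) = ((Real.exp (-b * x ^ 2) : ℝ) : ℂ) := by
      push_cast; rfl
    have e2 : Complex.I * (t : ℂ) * (x : ℂ) = ((t * x : ℝ) : ℂ) * Complex.I := by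
      push_cast; ring
    rw [e1, e2, Complex.re_mul_ofReal, Complex.exp_ofReal_mul_I_re]
  simp_rw [h3] at hre
  rw [hre]
  have e3 : ((Real.pi : ℂ) / (b : ℂ)) ^ (1 / 2 : ℂ) = ((Real.sqrt (Real.pi / b) : ℝ) : ℂ) := by
    rw [Real.sqrt_eq_rpow, Complex.ofReal_cpow (by positivity)]
    push_cast; rfl
  have e4 : Complex.exp (-(t : ℂ) ^ 2 / (4 * (b : ℂ)))
      = ((Real.exp (-t ^ 2 / (4 * b)) : ℝ) : ℂ) := by
    push_cast; rfl
  rw [e3, e4, ← Complex.ofReal_mul, Complex.ofReal_re]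

/-- The transform `ξ ↦ E cos((X - x) ξ)`. -/
noncomputable def mm (μ : Measure ℝ) (x ξ : ℝ) : ℝ := ∫ y, Real.cos ((y - x) * ξ) ∂μ

/-- `2π` times the density of `μ * N(0, r²)`. -/
noncomputable def PP (μ : Measure ℝ) (r x : ℝ) : ℝ :=
  (Real.sqrt (2 * Real.pi) / r) * ∫ y, Real.exp (-(y - x) ^ 2 / (2 * r ^ 2)) ∂μ

section
variable {l : ℝ} {μ : Measure ℝ} [IsProbabilityMeasure μ]

omit [IsProbabilityMeasure μ] in
lemma PP_nonneg (r x : ℝ) (hr : 0 < r) : 0 ≤ PP μ r x := by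
  unfold PP
  have : 0 ≤ ∫ y, Real.exp (-(y - x) ^ 2 / (2 * r ^ 2)) ∂μ :=
    integral_nonneg fun y => (Real.exp_pos _).le
  positivity

lemma PP_self (hl : 0 < l) (h : SS l μ) (r x : ℝ) (hr : 0 < r) :
    (PP μ r ((x - 1) / l) + PP μ r ((x + 1) / l)) / (2 * l) = PP μ (l * r) x := by
  unfold PP
  have h1 := int_self h (fun y => Real.exp (-(y - x) ^ 2 / (2 * (l * r) ^ 2)))
    (by fun_prop) 1 (fun y => by
      rw [abs_of_pos (Real.exp_pos _)]
      apply Real.exp_le_one_iff.mpr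
      rw [neg_div, neg_nonpos]
      positivity)
  rw [h1]
  have e1 : ∀ y : ℝ, -(l * y + 1 - x) ^ 2 / (2 * (l * r) ^ 2)
      = -(y - (x - 1) / l) ^ 2 / (2 * r ^ 2) := by
    intro y
    field_simp
    ring
  have e2 : ∀ y : ℝ, -(l * y - 1 - x) ^ 2 / (2 * (l * r) ^ 2)
      = -(y - (x + 1) / l) ^ 2 / (2 * r ^ 2) := by
    intro y
    field_simp
    ring
  simp_rw [e1, e2]
  generalize (∫ (y : ℝ), Real.exp (-(y - (x - 1) / l) ^ 2 / (2 * r ^ 2)) ∂μ) = A
  generalize (∫ (y : ℝ), Real.exp (-(y - (x + 1) / l) ^ 2 / (2 * r ^ 2)) ∂μ) = B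
  field_simp

lemma ball_le_PP (x r : ℝ) (hr : 0 < r) :
    μ.real (Metric.closedBall x r) ≤ r * PP μ r x := by
  unfold PP
  have e0 : r * (Real.sqrt (2 * Real.pi) / r * ∫ y, Real.exp (-(y - x) ^ 2 / (2 * r ^ 2)) ∂μ)
      = ∫ y, Real.sqrt (2 * Real.pi) * Real.exp (-(y - x) ^ 2 / (2 * r ^ 2)) ∂μ := by
    rw [integral_const_mul]; field_simp
  rw [e0]
  have e1 : μ.real (Metric.closedBall x r)
      = ∫ y, (Metric.closedBall x r).indicator (fun _ => (1 : ℝ)) y ∂μ := by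
    rw [integral_indicator measurableSet_closedBall, setIntegral_const]
    simp
  rw [e1]
  apply integral_mono_of_nonneg
  · exact ae_of_all _ fun y => Set.indicator_nonneg (fun _ _ => zero_le_one) y
  · apply Integrable.const_mul
    refine Integrable.of_bound (Continuous.aestronglyMeasurable (by fun_prop)) 1
      (ae_of_all _ fun y => ?_)
    rw [Real.norm_eq_abs, abs_of_pos (Real.exp_pos _)]
    apply Real.exp_le_one_iff.mpr
    rw [neg_div, neg_nonpos]
    positivity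
  · refine ae_of_all _ fun y => ?_
    by_cases hy : y ∈ Metric.closedBall x r
    · rw [Set.indicator_of_mem hy]
      rw [Metric.mem_closedBall, Real.dist_eq] at hy
      have h2 : (y - x) ^ 2 ≤ r ^ 2 := by
        rw [← sq_abs (y - x)]
        exact pow_le_pow_left₀ (abs_nonneg _) hy 2
      have h3 : -(1 / 2) ≤ -(y - x) ^ 2 / (2 * r ^ 2) := by
        rw [neg_div, neg_le_neg_iff, div_le_div_iff₀ (by positivity) (by norm_num)]
        linarith
      have h4 : Real.exp (-(1 / 2)) ≤ Real.exp (-(y - x) ^ 2 / (2 * r ^ 2)) :=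
        Real.exp_le_exp.mpr h3
      have h5 : 1 / 2 ≤ Real.exp (-(1 / 2)) := by
        have := Real.add_one_le_exp (-(1 / 2) : ℝ)
        linarith
      have h6 : 2 ≤ Real.sqrt (2 * Real.pi) := by
        apply Real.le_sqrt_of_sq_le
        have := Real.pi_gt_three
        nlinarith
      simp only
      nlinarith
    · rw [Set.indicator_of_notMem hy]
      positivity

lemma mm_integrable_aux (x ξ : ℝ) : Integrable (fun y => Real.cos ((y - x) * ξ)) μ :=
  Integrable.of_bound (Continuous.aestronglyMeasurable (by fun_prop)) 1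
    (ae_of_all _ fun _ => by rw [Real.norm_eq_abs]; exact Real.abs_cos_le_one _)

lemma mm_abs_le_one (x ξ : ℝ) : |mm μ x ξ| ≤ 1 := by
  unfold mm
  have h : ‖∫ y, Real.cos ((y - x) * ξ) ∂μ‖ ≤ ∫ _y, (1 : ℝ) ∂μ := by
    apply norm_integral_le_of_norm_le (integrable_const _)
    exact ae_of_all _ fun y => by rw [Real.norm_eq_abs]; exact Real.abs_cos_le_one _
  simpa using h

lemma mm_rec (h : SS l μ) (hl : 0 < l) (x ξ : ℝ) :
    mm μ x ξ = Real.cos ξ * mm μ (x / l) (l * ξ) := by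
  unfold mm
  have h1 := int_self h (fun y => Real.cos ((y - x) * ξ)) (by fun_prop) 1
    (fun y => Real.abs_cos_le_one _)
  rw [h1, ← integral_const_mul, ← integral_const_mul, ← integral_const_mul,
    ← integral_add]
  · apply integral_congr_ae
    refine ae_of_all _ fun y => ?_
    simp only
    have e1 : (l * y + 1 - x) * ξ = (y - x / l) * (l * ξ) + ξ := by field_simp; ring
    have e2 : (l * y - 1 - x) * ξ = (y - x / l) * (l * ξ) - ξ := by field_simp; ring
    rw [e1, e2, Real.cos_add, Real.cos_sub]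
    ring
  · apply Integrable.const_mul
    exact Integrable.of_bound (Continuous.aestronglyMeasurable (by fun_prop)) 1
      (ae_of_all _ fun _ => by rw [Real.norm_eq_abs]; exact Real.abs_cos_le_one _)
  · apply Integrable.const_mul
    exact Integrable.of_bound (Continuous.aestronglyMeasurable (by fun_prop)) 1
      (ae_of_all _ fun _ => by rw [Real.norm_eq_abs]; exact Real.abs_cos_le_one _)

lemma mm_prod (h : SS l μ) (hl : 0 < l) (n : ℕ) (x ξ : ℝ) :
    mm μ x ξ = (∏ k ∈ Finset.range n, Real.cos (l ^ k * ξ)) * mm μ (x / l ^ n) (l ^ n * ξ) := by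
  induction n generalizing x ξ with
  | zero => simp
  | succ n ih =>
    rw [mm_rec h hl x ξ, ih (x / l) (l * ξ), Finset.prod_range_succ']
    have e1 : x / l / l ^ n = x / l ^ (n + 1) := by rw [div_div, ← pow_succ']
    have e2 : l ^ n * (l * ξ) = l ^ (n + 1) * ξ := by rw [pow_succ]; ring
    have e3 : ∏ k ∈ Finset.range n, Real.cos (l ^ k * (l * ξ))
        = ∏ k ∈ Finset.range n, Real.cos (l ^ (k + 1) * ξ) := by
      apply Finset.prod_congr rfl
      intro k _
      congr 1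
      rw [pow_succ]; ring
    rw [e1, e2, e3]
    simp only [pow_zero, one_mul]
    ring

lemma mm_abs_le_prod (h : SS l μ) (hl : 0 < l) (n : ℕ) (x ξ : ℝ) :
    |mm μ x ξ| ≤ ∏ k ∈ Finset.range n, |Real.cos (l ^ k * ξ)| := by
  rw [mm_prod h hl n x ξ, abs_mul, Finset.abs_prod]
  have h1 := mm_abs_le_one (μ := μ) (x / l ^ n) (l ^ n * ξ)
  have h2 : 0 ≤ ∏ k ∈ Finset.range n, |Real.cos (l ^ k * ξ)| :=
    Finset.prod_nonneg fun _ _ => abs_nonneg _
  nlinarith

omit [IsProbabilityMeasure μ] in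
lemma mm_neg (x ξ : ℝ) : mm μ x (-ξ) = mm μ x ξ := by
  unfold mm
  congr 1
  funext y
  rw [mul_neg, Real.cos_neg]

lemma cos_sub_cos_le (a b : ℝ) : |Real.cos (a + b) - Real.cos b| ≤ |a| := by
  have h := Real.cos_sub_cos (a + b) b
  rw [h]
  have e : (a + b - b) / 2 = a / 2 := by ring
  rw [e, abs_mul, abs_mul]
  have h1 : |Real.sin ((a + b + b) / 2)| ≤ 1 := Real.abs_sin_le_one _
  have h2 : |Real.sin (a / 2)| ≤ |a / 2| := Real.abs_sin_le_abs
  have h3 : |a / 2| = |a| / 2 := by rw [abs_div]; norm_num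
  rw [h3] at h2
  have h4 : |(-2 : ℝ)| = 2 := by norm_num
  rw [h4]
  have h5 : 0 ≤ |Real.sin (a / 2)| := abs_nonneg _
  nlinarith [abs_nonneg (Real.sin ((a + b + b) / 2))]

lemma mm_far (hl : 0 < l) (hl1 : l < 1) (h : SS l μ) (n : ℕ) (x ξ : ℝ) :
    |mm μ (x / l ^ n) (l ^ n * ξ) - Real.cos (x * ξ)| ≤ l ^ n * |ξ| * (2 / (1 - l)) := by
  have hln : 0 < l ^ n := pow_pos hl n
  have he : 0 < 1 - l := by linarith
  have e1 : Real.cos (x * ξ) = ∫ _y, Real.cos (x * ξ) ∂μ := by simp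
  unfold mm
  rw [e1, ← integral_sub (mm_integrable_aux _ _) (integrable_const _)]
  have h2 : ‖∫ y, (Real.cos ((y - x / l ^ n) * (l ^ n * ξ)) - Real.cos (x * ξ)) ∂μ‖
      ≤ ∫ _y, (l ^ n * |ξ| * (2 / (1 - l))) ∂μ := by
    apply norm_integral_le_of_norm_le (integrable_const _)
    filter_upwards [ae_bdd hl hl1 h] with y hy
    rw [Real.norm_eq_abs]
    have e2 : (y - x / l ^ n) * (l ^ n * ξ) = l ^ n * ξ * y + -(x * ξ) := by
      field_simp; ring
    have e3 : Real.cos (x * ξ) = Real.cos (-(x * ξ)) := (Real.cos_neg _).symm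
    rw [e2, e3]
    refine (cos_sub_cos_le _ _).trans ?_
    rw [abs_mul, abs_mul, abs_of_pos hln]
    apply mul_le_mul_of_nonneg_left hy (by positivity)
  simpa using h2

lemma fubini_int (r x : ℝ) (hr : 0 < r) :
    Integrable (Function.uncurry fun y ξ : ℝ =>
      Real.cos ((y - x) * ξ) * Real.exp (-(r ^ 2 / 2) * ξ ^ 2)) (μ.prod volume) := by
  have h1 : Integrable (fun ξ : ℝ => Real.exp (-(r ^ 2 / 2) * ξ ^ 2)) volume :=
    integrable_exp_neg_mul_sq (by positivity)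
  have h2 := Integrable.comp_snd h1 μ
  refine Integrable.mono' h2 ?_ ?_
  · apply Continuous.aestronglyMeasurable
    unfold Function.uncurry
    fun_prop
  · refine ae_of_all _ fun p => ?_
    simp only [Function.uncurry, Real.norm_eq_abs, abs_mul, abs_of_pos (Real.exp_pos _)]
    have := Real.abs_cos_le_one ((p.1 - x) * p.2)
    have h3 := Real.exp_pos (-(r ^ 2 / 2) * p.2 ^ 2)
    nlinarith

lemma mm_gauss_integrable (r x : ℝ) (hr : 0 < r) :
    Integrable (fun ξ : ℝ => mm μ x ξ * Real.exp (-(r ^ 2 / 2) * ξ ^ 2)) := by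
  have h := (fubini_int (μ := μ) r x hr).integral_prod_right
  refine h.congr (ae_of_all _ fun ξ => ?_)
  simp only [Function.uncurry]
  rw [integral_mul_const]
  rfl

lemma PP_eq (r x : ℝ) (hr : 0 < r) :
    PP μ r x = ∫ ξ : ℝ, mm μ x ξ * Real.exp (-(r ^ 2 / 2) * ξ ^ 2) := by
  have h1 : ∀ y : ℝ, ∫ ξ : ℝ, Real.cos ((y - x) * ξ) * Real.exp (-(r ^ 2 / 2) * ξ ^ 2)
      = (Real.sqrt (2 * Real.pi) / r) * Real.exp (-(y - x) ^ 2 / (2 * r ^ 2)) := by
    intro y
    rw [gauss_cos (r ^ 2 / 2) (by positivity)]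
    have e1 : Real.pi / (r ^ 2 / 2) = (2 * Real.pi) / r ^ 2 := by field_simp
    have e2 : 4 * (r ^ 2 / 2) = 2 * r ^ 2 := by ring
    rw [e1, e2, Real.sqrt_div (by positivity), Real.sqrt_sq hr.le]
  unfold PP
  rw [← integral_const_mul]
  simp_rw [← h1]
  rw [integral_integral_swap (fubini_int (μ := μ) r x hr)]
  apply integral_congr_ae
  refine ae_of_all _ fun ξ => ?_
  simp only
  rw [integral_mul_const]
  rfl

end

end Pool.Agent.Work.BCF
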