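import Mathlib

set_option autoImplicit false

namespace Pool.Agent.Work.BCF

lemma abs_cos_le_exp (x : ℝ) : |Real.cos x| ≤ Real.exp (-(Real.sin x) ^ 2 / 2) := by
  have h1 : (Real.cos x) ^ 2 ≤ Real.exp (-(Real.sin x) ^ 2) := by
    have := Real.add_one_le_exp (-(Real.sin x) ^ 2)
    have h2 := Real.sin_sq_add_cos_sq x
    linarith
  have h3 : Real.exp (-(Real.sin x) ^ 2 / 2) ^ 2 = Real.exp (-(Real.sin x) ^ 2) := by
    rw [← Real.exp_nat_mul]; congr 1; push_cast; ring
  have h4 : 0 ≤ Real.exp (-(Real.sin x) ^ 2 / 2) := (Real.exp_pos _).le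
  apply abs_le_of_sq_le_sq _ h4
  rw [h3]; exact h1

/-- The comparison function. -/
noncomputable def Phi (x : ℝ) : ℝ := Real.log x / 2 - Real.sin (2 * x) / (4 * x)

lemma Phi_hasDeriv (x : ℝ) (hx : 0 < x) :
    HasDerivAt Phi ((Real.sin x) ^ 2 / x + Real.sin (2 * x) / (4 * x ^ 2)) x := by
  have h1 : HasDerivAt (fun y : ℝ => Real.log y / 2) (x⁻¹ / 2) x :=
    (Real.hasDerivAt_log hx.ne').div_const 2
  have h2 : HasDerivAt (fun y : ℝ => Real.sin (2 * y)) (Real.cos (2 * x) * 2) x := by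
    have h := ((hasDerivAt_id x).const_mul (2 : ℝ)).sin
    simpa using h
  have h3 : HasDerivAt (fun y : ℝ => 4 * y) 4 x := by
    simpa using (hasDerivAt_id x).const_mul (4 : ℝ)
  have h4 := h1.sub (h2.div h3 (by positivity))
  have h5 : ((Real.sin x) ^ 2 / x + Real.sin (2 * x) / (4 * x ^ 2))
      = x⁻¹ / 2 - (Real.cos (2 * x) * 2 * (4 * x) - Real.sin (2 * x) * 4) / (4 * x) ^ 2 := by
    have h6 : Real.cos (2 * x) = 1 - 2 * Real.sin x ^ 2 := by
      rw [Real.cos_two_mul]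
      have := Real.sin_sq_add_cos_sq x
      linarith
    rw [h6]
    field_simp
    ring
  rw [h5]
  exact h4

lemma Phi_step (l x : ℝ) (hl : 0 < l) (hl1 : l < 1) (hx : 0 < x) :
    Phi x - Phi (l * x) ≤ ((1 - l) / l) * ((Real.sin x) ^ 2 + (1 - l) * x)
      + (1 - l) / (4 * l ^ 2 * x) := by
  have hlt : l * x < x := by nlinarith
  have hlx : 0 < l * x := by positivity
  obtain ⟨c, ⟨hc1, hc2⟩, hc⟩ := exists_hasDerivAt_eq_slope Phi
    (fun y => (Real.sin y) ^ 2 / y + Real.sin (2 * y) / (4 * y ^ 2)) hlt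
    (by
      intro y hy
      exact (Phi_hasDeriv y (lt_of_lt_of_le hlx hy.1)).continuousAt.continuousWithinAt)
    (by
      intro y hy
      exact Phi_hasDeriv y (lt_trans hlx hy.1))
  have hc0 : 0 < c := lt_trans hlx hc1
  have hxl : 0 < x - l * x := by linarith
  have h1 : Phi x - Phi (l * x)
      = ((Real.sin c) ^ 2 / c + Real.sin (2 * c) / (4 * c ^ 2)) * (x - l * x) := by
    rw [hc, div_mul_cancel₀ _ hxl.ne']
  rw [h1]
  have h2 : (Real.sin c) ^ 2 ≤ (Real.sin x) ^ 2 + (1 - l) * x := by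
    have h3 : (Real.sin c) ^ 2 - (Real.sin x) ^ 2
        = Real.sin (c - x) * Real.sin (c + x) := by
      rw [Real.sin_sub, Real.sin_add]
      have e1 := Real.sin_sq_add_cos_sq c
      have e2 := Real.sin_sq_add_cos_sq x
      have e3 : Real.cos c ^ 2 = 1 - Real.sin c ^ 2 := by linarith
      have e4 : Real.cos x ^ 2 = 1 - Real.sin x ^ 2 := by linarith
      have : (Real.sin c * Real.cos x - Real.cos c * Real.sin x)
          * (Real.sin c * Real.cos x + Real.cos c * Real.sin x)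
          = Real.sin c ^ 2 * Real.cos x ^ 2 - Real.cos c ^ 2 * Real.sin x ^ 2 := by ring
      rw [this, e3, e4]; ring
    have h4 : |Real.sin (c - x)| ≤ |c - x| := Real.abs_sin_le_abs
    have h5 : |Real.sin (c + x)| ≤ 1 := Real.abs_sin_le_one _
    have h6 : Real.sin (c - x) * Real.sin (c + x) ≤ |c - x| * 1 := by
      calc Real.sin (c - x) * Real.sin (c + x) ≤ |Real.sin (c - x) * Real.sin (c + x)| :=
            le_abs_self _
        _ = |Real.sin (c - x)| * |Real.sin (c + x)| := abs_mul _ _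
        _ ≤ |c - x| * 1 := mul_le_mul h4 h5 (abs_nonneg _) (abs_nonneg _)
    have h7 : |c - x| ≤ (1 - l) * x := by
      rw [abs_sub_comm, abs_of_pos (by linarith : 0 < x - c)]
      nlinarith
    linarith
  have h8 : (Real.sin c) ^ 2 / c ≤ ((Real.sin x) ^ 2 + (1 - l) * x) / (l * x) := by
    have : 0 ≤ (Real.sin x) ^ 2 + (1 - l) * x := by
      have := mul_pos (sub_pos.mpr hl1) hx
      positivity
    exact div_le_div₀ this h2 hlx hc1.le
  have h9 : Real.sin (2 * c) / (4 * c ^ 2) ≤ 1 / (4 * (l * x) ^ 2) := by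
    apply div_le_div₀ (by norm_num) (Real.sin_le_one _) (by positivity)
    have : (l * x) ^ 2 ≤ c ^ 2 := by
      apply pow_le_pow_left₀ hlx.le hc1.le
    linarith
  have h10 : ((Real.sin c) ^ 2 / c + Real.sin (2 * c) / (4 * c ^ 2)) * (x - l * x)
      ≤ (((Real.sin x) ^ 2 + (1 - l) * x) / (l * x) + 1 / (4 * (l * x) ^ 2)) * (x - l * x) := by
    apply mul_le_mul_of_nonneg_right _ hxl.le
    linarith
  refine h10.trans (le_of_eq ?_)
  field_simp

lemma Phi_sum (l : ℝ) (hl : 0 < l) (hl1 : l < 1) (x : ℝ) (hx : 0 < x) (n : ℕ) :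
    Phi x - Phi (l ^ n * x) ≤ ((1 - l) / l) *
      ((∑ k ∈ Finset.range n, (Real.sin (l ^ k * x)) ^ 2) + x * (1 - l ^ n))
      + (1 / (4 * l)) * (1 / (l ^ n * x) - 1 / x) := by
  induction n with
  | zero => simp
  | succ n ih =>
    have hln : 0 < l ^ n := pow_pos hl n
    have h1 := Phi_step l (l ^ n * x) hl hl1 (by positivity)
    have e0 : l * (l ^ n * x) = l ^ (n + 1) * x := by rw [pow_succ]; ring
    rw [e0] at h1
    rw [Finset.sum_range_succ]
    have e1 : (1 - l) / (4 * l ^ 2 * (l ^ n * x))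
        = (1 / (4 * l)) * (1 / (l ^ (n + 1) * x) - 1 / (l ^ n * x)) := by
      rw [pow_succ]
      field_simp
      ring
    rw [e1] at h1
    have e2 : ((1 - l) / l) *
      ((∑ k ∈ Finset.range n, (Real.sin (l ^ k * x)) ^ 2) + Real.sin (l ^ n * x) ^ 2
        + x * (1 - l ^ (n + 1)))
      = ((1 - l) / l) *
      ((∑ k ∈ Finset.range n, (Real.sin (l ^ k * x)) ^ 2) + x * (1 - l ^ n))
       + ((1 - l) / l) * ((Real.sin (l ^ n * x)) ^ 2 + (1 - l) * (l ^ n * x)) := by
      rw [pow_succ]; ring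
    rw [e2]
    have e3 : (1 / (4 * l)) * (1 / (l ^ (n + 1) * x) - 1 / x)
      = (1 / (4 * l)) * (1 / (l ^ n * x) - 1 / x)
        + (1 / (4 * l)) * (1 / (l ^ (n + 1) * x) - 1 / (l ^ n * x)) := by ring
    rw [e3]
    linarith

/-- Lower bound for the sum of squares of sines. -/
lemma sin_sum_ge (l : ℝ) (hl : 0 < l) (hl1 : l < 1) (x : ℝ) (n : ℕ)
    (h1 : 1 ≤ l ^ n * x) :
    (l / (1 - l)) * ((Real.log x - Real.log (l ^ n * x)) / 2 - 1 / 2) - x - 1 / (4 * (1 - l))
      ≤ ∑ k ∈ Finset.range n, (Real.sin (l ^ k * x)) ^ 2 := by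
  have hln : 0 < l ^ n := pow_pos hl n
  have hln1 : l ^ n ≤ 1 := pow_le_one₀ hl.le hl1.le
  have hx : 0 < x := by
    by_contra hx
    push Not at hx
    nlinarith
  have hx1 : 1 ≤ x := by nlinarith
  have he : 0 < 1 - l := by linarith
  have h := Phi_sum l hl hl1 x hx n
  set S := ∑ k ∈ Finset.range n, (Real.sin (l ^ k * x)) ^ 2 with hS
  have h2 : (Real.log x - Real.log (l ^ n * x)) / 2 - 1 / 2 ≤ Phi x - Phi (l ^ n * x) := by
    unfold Phi
    have a1 : Real.sin (2 * x) / (4 * x) ≤ 1 / 4 := by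
      rw [div_le_div_iff₀ (by positivity) (by norm_num)]
      have := Real.sin_le_one (2 * x)
      nlinarith
    have a2 : -(1 / 4) ≤ Real.sin (2 * (l ^ n * x)) / (4 * (l ^ n * x)) := by
      rw [neg_le, ← neg_div]
      rw [div_le_div_iff₀ (by positivity) (by norm_num)]
      have := Real.neg_one_le_sin (2 * (l ^ n * x))
      nlinarith
    linarith
  have h3 : (1 / (4 * l)) * (1 / (l ^ n * x) - 1 / x) ≤ 1 / (4 * l) := by
    have b1 : 1 / (l ^ n * x) ≤ 1 := by
      rw [div_le_one (by positivity)]; exact h1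
    have b2 : 0 < 1 / x := by positivity
    have b3 : 0 < 1 / (4 * l) := by positivity
    nlinarith
  have h4 : x * (1 - l ^ n) ≤ x := by nlinarith
  have h5 : (Real.log x - Real.log (l ^ n * x)) / 2 - 1 / 2
      ≤ ((1 - l) / l) * (S + x) + 1 / (4 * l) := by
    have : ((1 - l) / l) * (S + x * (1 - l ^ n)) ≤ ((1 - l) / l) * (S + x) := by
      apply mul_le_mul_of_nonneg_left _ (by positivity)
      linarith
    linarith
  have h6 : (l / (1 - l)) * ((Real.log x - Real.log (l ^ n * x)) / 2 - 1 / 2)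
      ≤ (l / (1 - l)) * (((1 - l) / l) * (S + x) + 1 / (4 * l)) :=
    mul_le_mul_of_nonneg_left h5 (by positivity)
  have h7 : (l / (1 - l)) * (((1 - l) / l) * (S + x) + 1 / (4 * l))
      = S + x + 1 / (4 * (1 - l)) := by
    field_simp
  rw [h7] at h6
  linarith

lemma prod_abs_cos_le (l x : ℝ) (n : ℕ) :
    ∏ k ∈ Finset.range n, |Real.cos (l ^ k * x)|
      ≤ Real.exp (-(∑ k ∈ Finset.range n, (Real.sin (l ^ k * x)) ^ 2) / 2) := by
  calc ∏ k ∈ Finset.range n, |Real.cos (l ^ k * x)|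
      ≤ ∏ k ∈ Finset.range n, Real.exp (-(Real.sin (l ^ k * x)) ^ 2 / 2) :=
        Finset.prod_le_prod (fun _ _ => abs_nonneg _) (fun _ _ => abs_cos_le_exp _)
    _ = _ := by
        rw [← Real.exp_sum]
        congr 1
        rw [← Finset.sum_div, Finset.sum_neg_distrib]

end Pool.Agent.Work.BCF
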