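import Pool.Agent.Work.MP_bc8e1e_an.Four
import Pool.Agent.Work.MP_bc8e1e_an.SinSum

set_option autoImplicit false

open MeasureTheory Filter Topology

namespace Pool.Agent.Work.BCF

lemma cos_le_gauss (t : ℝ) (ht : |t| ≤ 1) : Real.cos t ≤ Real.exp (-(t ^ 2 / 2)) := by
  have h1 := Real.cos_bound ht
  have h2 : Real.cos t ≤ 1 - t ^ 2 / 2 + |t| ^ 4 * (5 / 96) := by
    have := (abs_le.mp h1).2
    linarith
  have e4 : |t| ^ 4 = (t ^ 2) ^ 2 := by
    rw [← sq_abs t]; ring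
  set z : ℝ := t ^ 2 / 2 with hz
  have hz0 : 0 ≤ z := by positivity
  have ht2 : t ^ 2 ≤ 1 := by
    rw [← sq_abs]; exact pow_le_one₀ (abs_nonneg _) ht
  have hz1 : z ≤ 1 / 2 := by rw [hz]; linarith
  have h3 : |(-z)| ≤ 1 := by rw [abs_neg, abs_of_nonneg hz0]; linarith
  have h4 := Real.exp_bound h3 (n := 3) (by norm_num)
  have h5 : Real.exp (-z) ≥ 1 - z + z ^ 2 / 2 - z ^ 3 * (2 / 9) := by
    have h6 := (abs_le.mp h4).1
    simp only [Finset.sum_range_succ, Finset.sum_range_zero, Nat.factorial, abs_neg,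
      abs_of_nonneg hz0] at h6
    norm_num at h6
    nlinarith
  have e5 : |t| ^ 4 * (5 / 96) = z ^ 2 * (5 / 24) := by rw [e4, hz]; ring
  rw [e5] at h2
  have h7 : z ^ 3 * (2 / 9) ≤ z ^ 2 * (1 / 9) := by
    have : z ^ 3 = z ^ 2 * z := by ring
    rw [this]
    nlinarith [sq_nonneg z]
  have h8 : 1 - z + z ^ 2 * (5 / 24) ≤ 1 - z + z ^ 2 / 2 - z ^ 3 * (2 / 9) := by
    nlinarith [sq_nonneg z]
  linarith

lemma gauss_le_cos (t : ℝ) (ht : |t| ≤ 1) :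
    Real.exp (-(t ^ 2 / 2 + t ^ 4 / 4)) ≤ Real.cos t := by
  have h1 := Real.one_sub_sq_div_two_le_cos (x := t)
  set z : ℝ := t ^ 2 / 2 with hz
  have hz0 : 0 ≤ z := by positivity
  have ht2 : t ^ 2 ≤ 1 := by
    rw [← sq_abs]; exact pow_le_one₀ (abs_nonneg _) ht
  have hz1 : z ≤ 1 / 2 := by rw [hz]; linarith
  have e4 : t ^ 4 / 4 = z ^ 2 := by rw [hz]; ring
  rw [e4]
  refine le_trans ?_ h1
  have h2 := Real.quadratic_le_exp_of_nonneg (x := z + z ^ 2) (by positivity)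
  rw [Real.exp_neg]
  have h3 : 0 < Real.exp (z + z ^ 2) := Real.exp_pos _
  rw [inv_le_comm₀ h3 (by linarith)]
  refine le_trans ?_ h2
  rw [inv_le_iff_one_le_mul₀' (by linarith)]
  have h4 : (1 - z) * (1 + (z + z ^ 2) + (z + z ^ 2) ^ 2 / 2)
      = 1 + z ^ 2 / 2 * (1 - z - z ^ 2 - z ^ 3) := by ring
  rw [h4]
  have h5 : 0 ≤ 1 - z - z ^ 2 - z ^ 3 := by
    have a1 : z ^ 2 ≤ 1 / 4 := by nlinarith
    have a2 : z ^ 3 ≤ 1 / 8 := by
      have : z ^ 3 = z ^ 2 * z := by ring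
      rw [this]; nlinarith
    linarith
  have h6 : 0 ≤ z ^ 2 / 2 * (1 - z - z ^ 2 - z ^ 3) := by positivity
  linarith

lemma sq_le_exp (w : ℝ) (hw : 0 ≤ w) : w ^ 2 ≤ Real.exp w := by
  have h1 := Real.quadratic_le_exp_of_nonneg (x := w / 2) (by positivity)
  have h2 : w ≤ Real.exp (w / 2) := by nlinarith [sq_nonneg (w - 2)]
  have h3 : Real.exp w = Real.exp (w / 2) ^ 2 := by
    rw [← Real.exp_nat_mul]; congr 1; push_cast; ring
  rw [h3]
  exact pow_le_pow_left₀ hw h2 2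

section
variable {l : ℝ}

lemma abs_pow_mul_le (hl : 0 < l) (hl1 : l < 1) (k : ℕ) (ξ : ℝ) (hξ : |ξ| ≤ 1) :
    |l ^ k * ξ| ≤ 1 := by
  rw [abs_mul, abs_of_pos (pow_pos hl k)]
  have : l ^ k ≤ 1 := pow_le_one₀ hl.le hl1.le
  nlinarith [abs_nonneg ξ, pow_pos hl k]

lemma prod_le_gauss (hl : 0 < l) (hl1 : l < 1) (V : ℝ) (hV : V * (1 - l ^ 2) = 1) (n : ℕ)
    (ξ : ℝ) (hξ : |ξ| ≤ 1) :
    ∏ k ∈ Finset.range n, Real.cos (l ^ k * ξ)
      ≤ Real.exp (-(V * (1 - l ^ (2 * n)) * (ξ ^ 2 / 2))) ∧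
    Real.exp (-(V * (1 - l ^ (2 * n)) * (ξ ^ 2 / 2 + ξ ^ 4 / 4)))
      ≤ ∏ k ∈ Finset.range n, Real.cos (l ^ k * ξ) := by
  induction n with
  | zero => simp
  | succ n ih =>
    obtain ⟨ih1, ih2⟩ := ih
    rw [Finset.prod_range_succ]
    have hb := abs_pow_mul_le hl hl1 n ξ hξ
    have c1 := cos_le_gauss _ hb
    have c2 := gauss_le_cos _ hb
    have e0 : V * (1 - l ^ (2 * (n + 1))) = V * (1 - l ^ (2 * n)) + l ^ (2 * n) := by
      have : l ^ (2 * (n + 1)) = l ^ (2 * n) * l ^ 2 := by rw [← pow_add]; ring_nf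
      rw [this]
      linear_combination (l ^ (2 * n)) * hV
    have hpos : 0 ≤ ∏ k ∈ Finset.range n, Real.cos (l ^ k * ξ) :=
      le_trans (Real.exp_pos _).le ih2
    constructor
    · calc (∏ k ∈ Finset.range n, Real.cos (l ^ k * ξ)) * Real.cos (l ^ n * ξ)
          ≤ Real.exp (-(V * (1 - l ^ (2 * n)) * (ξ ^ 2 / 2)))
            * Real.exp (-((l ^ n * ξ) ^ 2 / 2)) :=
            mul_le_mul ih1 c1 (le_trans (Real.exp_pos _).le c2) (Real.exp_pos _).le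
        _ = Real.exp (-(V * (1 - l ^ (2 * (n + 1))) * (ξ ^ 2 / 2))) := by
            rw [← Real.exp_add, e0]
            congr 1
            ring
    · calc Real.exp (-(V * (1 - l ^ (2 * (n + 1))) * (ξ ^ 2 / 2 + ξ ^ 4 / 4)))
          = Real.exp (-(V * (1 - l ^ (2 * n)) * (ξ ^ 2 / 2 + ξ ^ 4 / 4)))
            * Real.exp (-(l ^ (2 * n) * (ξ ^ 2 / 2 + ξ ^ 4 / 4))) := by
            rw [← Real.exp_add, e0]
            congr 1
            ring
        _ ≤ (∏ k ∈ Finset.range n, Real.cos (l ^ k * ξ)) * Real.cos (l ^ n * ξ) := by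
            apply mul_le_mul ih2 _ (Real.exp_pos _).le hpos
            refine le_trans ?_ c2
            apply Real.exp_le_exp.mpr
            have a1 : (l ^ n * ξ) ^ 2 / 2 + (l ^ n * ξ) ^ 4 / 4
                = l ^ (2 * n) * (ξ ^ 2 / 2) + l ^ (2 * n) * (l ^ (2 * n) * (ξ ^ 4 / 4)) := by
              have : l ^ (2 * n) = (l ^ n) ^ 2 := by rw [mul_comm, pow_mul]
              rw [this]; ring
            rw [a1]
            have a2 : l ^ (2 * n) ≤ 1 := pow_le_one₀ hl.le hl1.le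
            have a3 : 0 < l ^ (2 * n) := pow_pos hl _
            have a4 : 0 ≤ ξ ^ 4 / 4 := by positivity
            have a5 : l ^ (2 * n) * (l ^ (2 * n) * (ξ ^ 4 / 4)) ≤ l ^ (2 * n) * (ξ ^ 4 / 4) := by
              apply mul_le_mul_of_nonneg_left _ a3.le
              nlinarith
            nlinarith

lemma tendsto_aux (hl : 0 < l) (hl1 : l < 1) (V a : ℝ) :
    Tendsto (fun n : ℕ => Real.exp (-(V * (1 - l ^ (2 * n)) * a))) atTop
      (𝓝 (Real.exp (-(V * a)))) := by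
  have h1 : Tendsto (fun n : ℕ => l ^ (2 * n)) atTop (𝓝 0) := by
    have h2 : Tendsto (fun n : ℕ => (l ^ 2) ^ n) atTop (𝓝 0) :=
      tendsto_pow_atTop_nhds_zero_of_lt_one (by positivity) (by nlinarith)
    simpa [pow_mul] using h2
  have h3 : Tendsto (fun n : ℕ => -(V * (1 - l ^ (2 * n)) * a)) atTop
      (𝓝 (-(V * (1 - 0) * a))) :=
    (((h1.const_sub 1).const_mul V).mul_const a).neg
  have h4 : -(V * (1 - 0) * a) = -(V * a) := by ring
  rw [h4] at h3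
  exact (Real.continuous_exp.tendsto _).comp h3

end

section
variable {l : ℝ} {μ : Measure ℝ} [IsProbabilityMeasure μ]

lemma mm_small_abs (h : SS l μ) (hl : 0 < l) (hl1 : l < 1) (V : ℝ) (hV : V * (1 - l ^ 2) = 1)
    (x ξ : ℝ) (hξ : |ξ| ≤ 1) : |mm μ x ξ| ≤ Real.exp (-(V * (ξ ^ 2 / 2))) := by
  apply ge_of_tendsto' (tendsto_aux hl hl1 V (ξ ^ 2 / 2))
  intro n
  obtain ⟨h1, h2⟩ := prod_le_gauss hl hl1 V hV n ξ hξ
  rw [mm_prod h hl n x ξ, abs_mul]
  have h3 := mm_abs_le_one (μ := μ) (x / l ^ n) (l ^ n * ξ)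
  have h4 : 0 ≤ ∏ k ∈ Finset.range n, Real.cos (l ^ k * ξ) := le_trans (Real.exp_pos _).le h2
  rw [abs_of_nonneg h4]
  nlinarith

lemma mm_small_diff (h : SS l μ) (hl : 0 < l) (hl1 : l < 1) (V : ℝ) (hV : V * (1 - l ^ 2) = 1)
    (x ξ : ℝ) (hξ : |ξ| ≤ 1) :
    |mm μ x ξ - Real.cos (x * ξ) * Real.exp (-(V * (ξ ^ 2 / 2)))|
      ≤ (4 / V) * Real.exp (-(V / 4) * ξ ^ 2) := by
  have he : 0 < 1 - l := by linarith
  have hVpos : 0 < V := by
    have : 0 < 1 - l ^ 2 := by nlinarith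
    by_contra hV'
    push Not at hV'
    nlinarith
  set E : ℝ := Real.exp (-(V * (ξ ^ 2 / 2))) with hE
  set A : ℝ := Real.exp (-(V * (ξ ^ 2 / 2 + ξ ^ 4 / 4))) with hA
  have hlim0 : Tendsto (fun n : ℕ => l ^ n * (2 / (1 - l))) atTop (𝓝 (0 * (2 / (1 - l)))) :=
    (tendsto_pow_atTop_nhds_zero_of_lt_one hl.le hl1).mul_const _
  have hlim1 := tendsto_aux hl hl1 V (ξ ^ 2 / 2)
  have hlim2 := tendsto_aux hl hl1 V (ξ ^ 2 / 2 + ξ ^ 4 / 4)
  have hlim : Tendsto (fun n : ℕ => l ^ n * (2 / (1 - l))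
      + |Real.exp (-(V * (1 - l ^ (2 * n)) * (ξ ^ 2 / 2))) - E|
      + |Real.exp (-(V * (1 - l ^ (2 * n)) * (ξ ^ 2 / 2 + ξ ^ 4 / 4))) - E|) atTop
      (𝓝 (0 * (2 / (1 - l)) + |E - E| + |A - E|)) :=
    (hlim0.add (hlim1.sub_const E).abs).add (hlim2.sub_const E).abs
  have key : |mm μ x ξ - Real.cos (x * ξ) * E| ≤ 0 * (2 / (1 - l)) + |E - E| + |A - E| := by
    apply ge_of_tendsto' hlim
    intro n
    obtain ⟨h1, h2⟩ := prod_le_gauss hl hl1 V hV n ξ hξ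
    have h3 := mm_far hl hl1 h n x ξ
    set Q := ∏ k ∈ Finset.range n, Real.cos (l ^ k * ξ) with hQ
    set b := Real.exp (-(V * (1 - l ^ (2 * n)) * (ξ ^ 2 / 2)))
    set a := Real.exp (-(V * (1 - l ^ (2 * n)) * (ξ ^ 2 / 2 + ξ ^ 4 / 4)))
    have hQ0 : 0 ≤ Q := le_trans (Real.exp_pos _).le h2
    have hQ1 : Q ≤ 1 := by
      apply Finset.prod_le_one
      · intro k _
        exact le_trans (Real.exp_pos _).le (gauss_le_cos _ (abs_pow_mul_le hl hl1 k ξ hξ))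
      · intro k _; exact Real.cos_le_one _
    have e1 : mm μ x ξ - Real.cos (x * ξ) * E
        = Q * (mm μ (x / l ^ n) (l ^ n * ξ) - Real.cos (x * ξ)) + Real.cos (x * ξ) * (Q - E) := by
      rw [mm_prod h hl n x ξ, ← hQ]; ring
    rw [e1]
    have h4 : |Q * (mm μ (x / l ^ n) (l ^ n * ξ) - Real.cos (x * ξ))| ≤ l ^ n * (2 / (1 - l)) := by
      rw [abs_mul, abs_of_nonneg hQ0]
      have h5 : l ^ n * |ξ| * (2 / (1 - l)) ≤ l ^ n * (2 / (1 - l)) := by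
        apply mul_le_mul_of_nonneg_right _ (by positivity)
        nlinarith [pow_pos hl n]
      have h6 := abs_nonneg (mm μ (x / l ^ n) (l ^ n * ξ) - Real.cos (x * ξ))
      nlinarith
    have h7 : |Real.cos (x * ξ) * (Q - E)| ≤ |Q - E| := by
      rw [abs_mul]
      have := Real.abs_cos_le_one (x * ξ)
      nlinarith [abs_nonneg (Q - E)]
    have h8 : |Q - E| ≤ |b - E| + |a - E| := by
      rcases le_total E Q with hEQ | hEQ
      · rw [abs_of_nonneg (by linarith : 0 ≤ Q - E)]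
        have := le_abs_self (b - E)
        have := abs_nonneg (a - E)
        linarith
      · rw [abs_of_nonpos (by linarith : Q - E ≤ 0)]
        have := neg_abs_le (a - E)
        have := abs_nonneg (b - E)
        linarith
    calc |Q * (mm μ (x / l ^ n) (l ^ n * ξ) - Real.cos (x * ξ)) + Real.cos (x * ξ) * (Q - E)|
        ≤ |Q * (mm μ (x / l ^ n) (l ^ n * ξ) - Real.cos (x * ξ))| + |Real.cos (x * ξ) * (Q - E)| :=
          abs_add_le _ _
      _ ≤ _ := by linarith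
  refine key.trans ?_
  rw [sub_self, abs_zero, zero_mul, zero_add, zero_add]
  have e2 : A = E * Real.exp (-(V * (ξ ^ 4 / 4))) := by
    rw [hA, hE, ← Real.exp_add]; congr 1; ring
  have h9 : |A - E| ≤ E * (V * (ξ ^ 4 / 4)) := by
    rw [e2]
    have h10 := Real.add_one_le_exp (-(V * (ξ ^ 4 / 4)))
    have h11 : Real.exp (-(V * (ξ ^ 4 / 4))) ≤ 1 := by
      apply Real.exp_le_one_iff.mpr
      have : 0 ≤ V * (ξ ^ 4 / 4) := by positivity
      linarith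
    have hE0 : 0 < E := Real.exp_pos _
    rw [abs_of_nonpos (by nlinarith)]
    nlinarith
  refine h9.trans ?_
  have h12 := sq_le_exp (V * ξ ^ 2 / 4) (by positivity)
  have e3 : E * (V * (ξ ^ 4 / 4)) = (4 / V) * (E * (V * ξ ^ 2 / 4) ^ 2) := by
    field_simp
  rw [e3]
  apply mul_le_mul_of_nonneg_left _ (by positivity)
  have e4 : Real.exp (-(V / 4) * ξ ^ 2) = E * Real.exp (V * ξ ^ 2 / 4) := by
    rw [hE, ← Real.exp_add]; congr 1; ring
  rw [e4]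
  exact mul_le_mul_of_nonneg_left h12 (Real.exp_pos _).le

lemma mm_abs_shift (h : SS l μ) (hl : 0 < l) (n : ℕ) (x ξ : ℝ) :
    |mm μ x ξ| ≤ |mm μ (x / l ^ n) (l ^ n * ξ)| := by
  rw [mm_prod h hl n x ξ, abs_mul, Finset.abs_prod]
  have h1 : ∏ k ∈ Finset.range n, |Real.cos (l ^ k * ξ)| ≤ 1 :=
    Finset.prod_le_one (fun _ _ => abs_nonneg _) (fun _ _ => Real.abs_cos_le_one _)
  nlinarith [abs_nonneg (mm μ (x / l ^ n) (l ^ n * ξ))]

lemma mm_mid (h : SS l μ) (hl : 0 < l) (hl1 : l < 1) (hl2 : 1 / 2 ≤ l ^ 2)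
    (V : ℝ) (hV : V * (1 - l ^ 2) = 1)
    (x ξ : ℝ) (hξ : 1 ≤ |ξ|) : |mm μ x ξ| ≤ Real.exp (-(V / 4)) := by
  have hξ0 : 0 < |ξ| := by linarith
  have hVpos : 0 < V := by
    have : 0 < 1 - l ^ 2 := by nlinarith
    by_contra hV'
    push Not at hV'
    nlinarith
  obtain ⟨n, hn1, hn2⟩ := exists_nat_pow_near_of_lt_one (x := 1 / |ξ|) (y := l)
    (by positivity) (by rw [div_le_one hξ0]; exact hξ) hl hl1
  rw [lt_div_iff₀ hξ0] at hn1
  rw [div_le_iff₀ hξ0] at hn2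
  refine (mm_abs_shift h hl (n + 1) x ξ).trans ?_
  have h1 : |l ^ (n + 1) * ξ| ≤ 1 := by
    rw [abs_mul, abs_of_pos (pow_pos hl _)]; exact hn1.le
  refine (mm_small_abs h hl hl1 V hV _ _ h1).trans ?_
  apply Real.exp_le_exp.mpr
  have h2 : l ≤ |l ^ (n + 1) * ξ| := by
    rw [abs_mul, abs_of_pos (pow_pos hl _), pow_succ]
    nlinarith
  have h3 : l ^ 2 ≤ (l ^ (n + 1) * ξ) ^ 2 := by
    rw [← sq_abs (l ^ (n + 1) * ξ)]
    exact pow_le_pow_left₀ hl.le h2 2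
  nlinarith

/-- The large frequency bound. -/
lemma mm_big_pos (h : SS l μ) (hl : 0 < l) (hl1 : l < 1) (hl9 : 9 / 10 ≤ l)
    (x ξ : ℝ) (hξ : 1 / (1 - l) ≤ ξ) :
    |mm μ x ξ| ≤ Real.exp (-((-Real.log (1 - l) / 4 - 2) / (1 - l))) := by
  have he : 0 < 1 - l := by linarith
  have hξ0 : 0 < ξ := lt_of_lt_of_le (by positivity) hξ
  -- shift so that `l/(1-l) ≤ x0 ≤ 1/(1-l)`
  obtain ⟨n, hn1, hn2⟩ := exists_nat_pow_near_of_lt_one (x := 1 / (1 - l) / ξ) (y := l)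
    (by positivity) (by rw [div_le_one hξ0]; exact hξ) hl hl1
  rw [lt_div_iff₀ hξ0] at hn1
  rw [div_le_iff₀ hξ0] at hn2
  refine (mm_abs_shift h hl (n + 1) x ξ).trans ?_
  set x0 : ℝ := l ^ (n + 1) * ξ with hx0
  have h0a : x0 ≤ 1 / (1 - l) := hn1.le
  have h0b : l / (1 - l) ≤ x0 := by
    rw [hx0, pow_succ]
    have : l / (1 - l) = (1 / (1 - l)) * l := by ring
    rw [this]
    nlinarith
  have h0c : 1 ≤ x0 := by
    refine le_trans ?_ h0b
    rw [le_div_iff₀ he]; linarith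
  have h0d : 0 < x0 := by linarith
  obtain ⟨k, hk1, hk2⟩ := exists_nat_pow_near_of_lt_one (x := 1 / x0) (y := l)
    (by positivity) (by rw [div_le_one h0d]; exact h0c) hl hl1
  rw [lt_div_iff₀ h0d] at hk1
  rw [div_le_iff₀ h0d] at hk2
  refine (mm_abs_le_prod h hl k _ x0).trans ((prod_abs_cos_le l x0 k).trans ?_)
  apply Real.exp_le_exp.mpr
  have hS := sin_sum_ge l hl hl1 x0 k hk2
  set S := ∑ j ∈ Finset.range k, (Real.sin (l ^ j * x0)) ^ 2
  rw [neg_div, neg_le_neg_iff]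
  set L : ℝ := -Real.log (1 - l) with hL
  have hlog1 : Real.log (l / (1 - l)) ≤ Real.log x0 := Real.log_le_log (by positivity) h0b
  rw [Real.log_div hl.ne' he.ne'] at hlog1
  have hlkpos : 0 < l ^ k * x0 := by positivity
  have hlog2 : Real.log (l ^ k * x0) ≤ -Real.log l := by
    rw [← Real.log_inv]
    apply Real.log_le_log hlkpos
    rw [le_inv_comm₀ hlkpos hl]
    rw [pow_succ] at hk1
    rw [inv_eq_one_div, le_div_iff₀ hlkpos]
    nlinarith
  have hlogl : -(1 / 2) ≤ Real.log l := by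
    have h1 := Real.one_sub_inv_le_log_of_pos hl
    have h2 : l⁻¹ ≤ 10 / 9 := by
      rw [inv_le_comm₀ hl (by norm_num)]; linarith
    linarith
  have hLe : L ≤ 1 / (1 - l) := by
    have h1 := Real.log_le_sub_one_of_pos (x := (1 - l)⁻¹) (by positivity)
    rw [Real.log_inv] at h1
    rw [one_div]
    linarith
  have hdiff : L - 1 ≤ Real.log x0 - Real.log (l ^ k * x0) := by linarith
  have hb : (l / (1 - l)) * (L / 2 - 1) - 5 / (4 * (1 - l)) ≤ S := by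
    refine le_trans ?_ hS
    have c1 : (l / (1 - l)) * (L / 2 - 1)
        ≤ (l / (1 - l)) * ((Real.log x0 - Real.log (l ^ k * x0)) / 2 - 1 / 2) := by
      apply mul_le_mul_of_nonneg_left _ (by positivity)
      linarith
    have c2 : 5 / (4 * (1 - l)) = 1 / (1 - l) + 1 / (4 * (1 - l)) := by
      field_simp; norm_num
    rw [c2]
    linarith
  have c3 : (l / (1 - l)) * (L / 2 - 1) - 5 / (4 * (1 - l))
      = (L / 2 - 9 / 4) / (1 - l) - (L / 2 - 1) := by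
    field_simp; ring
  rw [c3] at hb
  have c4 : (L / 4 - 2) / (1 - l) = ((L / 2 - 9 / 4) / (1 - l)) / 2 - (7 / 8) * (1 / (1 - l)) := by
    field_simp; ring
  rw [c4]
  have c5 : 0 < 1 / (1 - l) := by positivity
  linarith

lemma mm_big (h : SS l μ) (hl : 0 < l) (hl1 : l < 1) (hl9 : 9 / 10 ≤ l)
    (x ξ : ℝ) (hξ : 1 / (1 - l) ≤ |ξ|) :
    |mm μ x ξ| ≤ Real.exp (-((-Real.log (1 - l) / 4 - 2) / (1 - l))) := by
  rcases le_total 0 ξ with h0 | h0
  · rw [abs_of_nonneg h0] at hξ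
    exact mm_big_pos h hl hl1 hl9 x ξ hξ
  · rw [abs_of_nonpos h0] at hξ
    rw [← mm_neg]
    exact mm_big_pos h hl hl1 hl9 x (-ξ) hξ

end

end Pool.Agent.Work.BCF
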