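import Pool.Agent.Work.MP_bc8e1e_an.SelfSim

set_option autoImplicit false

open MeasureTheory Filter Topology

namespace Pool.Agent.Work.BCF

section
variable {l : ℝ} {μ : Measure ℝ} [IsProbabilityMeasure μ]

/-- A positive supersolution of the transfer operator dominates the measure of balls. -/
theorem transfer (hl2 : 1 / 2 < l) (hl1 : l < 1) (h : SS l μ) (r0 : ℝ) (hr0 : 0 < r0)
    (hr1 : r0 ≤ 1) (ψ : ℝ → ℝ) (hψ : ∀ x, 0 ≤ ψ x) (ω : ℝ) (hω : 0 ≤ ω)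
    (hinit : ∀ x, μ.real (Metric.closedBall x r0) ≤ r0 * ψ x)
    (hT : ∀ x, |x| ≤ 2 / (1 - l) →
      (ψ ((x - 1) / l) + ψ ((x + 1) / l)) / (2 * l) ≤ (1 + ω) * ψ x) (m : ℕ) (x : ℝ) :
    μ.real (Metric.closedBall x (l ^ m * r0)) ≤ r0 * l ^ m * (1 + ω) ^ m * ψ x := by
  have hl : 0 < l := by linarith
  induction m generalizing x with
  | zero => simpa using hinit x
  | succ m ih =>
    have hlm : 0 < l ^ m := pow_pos hl m
    have hnn : 0 ≤ r0 * l ^ (m + 1) * (1 + ω) ^ (m + 1) * ψ x := by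
      have := hψ x
      positivity
    rcases le_or_gt |x| (2 / (1 - l)) with hx | hx
    · have e : l ^ (m + 1) * r0 = l * (l ^ m * r0) := by rw [pow_succ]; ring
      rw [e, ball_self hl h]
      have h1 := ih ((x - 1) / l)
      have h2 := ih ((x + 1) / l)
      have h3 := hT x hx
      rw [div_le_iff₀ (by positivity)] at h3
      set a := ψ ((x - 1) / l)
      set b := ψ ((x + 1) / l)
      have hK : 0 ≤ r0 * l ^ m * (1 + ω) ^ m / 2 := by positivity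
      calc (1/2) * μ.real (Metric.closedBall ((x - 1) / l) (l ^ m * r0))
            + (1/2) * μ.real (Metric.closedBall ((x + 1) / l) (l ^ m * r0))
          ≤ (1/2) * (r0 * l ^ m * (1 + ω) ^ m * a) + (1/2) * (r0 * l ^ m * (1 + ω) ^ m * b) := by
            linarith
        _ = (r0 * l ^ m * (1 + ω) ^ m / 2) * (a + b) := by ring
        _ ≤ (r0 * l ^ m * (1 + ω) ^ m / 2) * ((1 + ω) * ψ x * (2 * l)) :=
            mul_le_mul_of_nonneg_left h3 hK
        _ = r0 * l ^ (m + 1) * (1 + ω) ^ (m + 1) * ψ x := by rw [pow_succ, pow_succ]; ring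
    · have hle : l ^ (m + 1) * r0 ≤ 1 := by
        have : l ^ (m + 1) ≤ 1 := pow_le_one₀ hl.le hl1.le
        nlinarith [pow_pos hl (m + 1)]
      rw [ball_far hl hl1 h x _ hle hx hl2]
      exact hnn

/-- From the geometric scales to all scales. -/
theorem frostman_of_geom (hl2 : 1 / 2 < l) (hl1 : l < 1) (r0 : ℝ) (hr0 : 0 < r0)
    (hr1 : r0 ≤ 1) (M : ℝ) (hM : 0 ≤ M) (ω δ : ℝ) (hω : 0 ≤ ω) (hδ0 : 0 ≤ δ) (hδ1 : δ ≤ 1)
    (hωδ : 1 + ω ≤ l ^ (-δ)) (x : ℝ)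
    (hgeom : ∀ m : ℕ, μ.real (Metric.closedBall x (l ^ m * r0)) ≤ r0 * l ^ m * (1 + ω) ^ m * M)
    (ρ : ℝ) (hρ : 0 < ρ) (hρr : ρ ≤ r0) :
    μ.real (Metric.closedBall x ρ) ≤ 2 * M * ρ ^ (1 - δ) := by
  have hl : 0 < l := by linarith
  obtain ⟨m, hm1, hm2⟩ := exists_nat_pow_near_of_lt_one (div_pos hρ hr0)
    ((div_le_one hr0).mpr hρr) hl hl1
  have hlm : 0 < l ^ m := pow_pos hl m
  rw [lt_div_iff₀ hr0] at hm1
  rw [div_le_iff₀ hr0] at hm2
  have h1 : μ.real (Metric.closedBall x ρ) ≤ μ.real (Metric.closedBall x (l ^ m * r0)) :=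
    measureReal_mono (Metric.closedBall_subset_closedBall hm2) (measure_ne_top _ _)
  refine h1.trans ((hgeom m).trans ?_)
  have h2 : (1 + ω) ^ m ≤ (l ^ m) ^ (-δ) := by
    calc (1 + ω) ^ m ≤ (l ^ (-δ)) ^ m := pow_le_pow_left₀ (by linarith) hωδ m
      _ = (l ^ m) ^ (-δ) := by
        rw [← Real.rpow_natCast (l ^ (-δ)) m, ← Real.rpow_mul hl.le, ← Real.rpow_natCast l m,
          ← Real.rpow_mul hl.le, mul_comm]
  have h3 : l ^ m * (l ^ m) ^ (-δ) = (l ^ m) ^ (1 - δ) := by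
    rw [sub_eq_add_neg, Real.rpow_add hlm, Real.rpow_one]
  have h4 : l ^ m ≤ 2 * (ρ / r0) := by
    rw [mul_div_assoc', le_div_iff₀ hr0]
    rw [pow_succ] at hm1
    nlinarith [mul_pos hlm hr0]
  have h5 : (l ^ m) ^ (1 - δ) ≤ (2 * (ρ / r0)) ^ (1 - δ) :=
    Real.rpow_le_rpow hlm.le h4 (by linarith)
  have h6 : (2 * (ρ / r0)) ^ (1 - δ) ≤ 2 * (ρ ^ (1 - δ) / r0) := by
    rw [Real.mul_rpow (by norm_num) (div_pos hρ hr0).le, Real.div_rpow hρ.le hr0.le]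
    have a1 : (2 : ℝ) ^ (1 - δ) ≤ 2 := by
      calc (2 : ℝ) ^ (1 - δ) ≤ (2 : ℝ) ^ (1 : ℝ) :=
            Real.rpow_le_rpow_of_exponent_le (by norm_num) (by linarith)
        _ = 2 := Real.rpow_one 2
    have a2 : r0 ≤ r0 ^ (1 - δ) := by
      calc r0 = r0 ^ (1 : ℝ) := (Real.rpow_one r0).symm
        _ ≤ r0 ^ (1 - δ) := Real.rpow_le_rpow_of_exponent_ge hr0 hr1 (by linarith)
    have a3 : ρ ^ (1 - δ) / r0 ^ (1 - δ) ≤ ρ ^ (1 - δ) / r0 :=
      div_le_div_of_nonneg_left (Real.rpow_nonneg hρ.le _) hr0 a2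
    exact mul_le_mul a1 a3 (by positivity) (by norm_num)
  calc r0 * l ^ m * (1 + ω) ^ m * M ≤ r0 * l ^ m * (l ^ m) ^ (-δ) * M := by
        apply mul_le_mul_of_nonneg_right _ hM
        exact mul_le_mul_of_nonneg_left h2 (by positivity)
    _ = r0 * (l ^ m) ^ (1 - δ) * M := by rw [mul_assoc r0, h3]
    _ ≤ r0 * (2 * (ρ ^ (1 - δ) / r0)) * M := by
        apply mul_le_mul_of_nonneg_right _ hM
        exact mul_le_mul_of_nonneg_left (h5.trans h6) hr0.le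
    _ = 2 * M * ρ ^ (1 - δ) := by
        have hr : r0 ≠ 0 := hr0.ne'
        field_simp

end

end Pool.Agent.Work.BCF
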