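import Pool.Agent.Work.MP_bc8e1e_an.Bounds
import Pool.Agent.Work.MP_bc8e1e_an.Chi
import Pool.Agent.Work.MP_bc8e1e_an.Transfer

set_option autoImplicit false

open MeasureTheory Filter Topology

namespace Pool.Agent.Work.BCF

lemma cube_le_exp (w : ℝ) (hw : 0 ≤ w) : w ^ 3 / 6 ≤ Real.exp w := by
  have := Real.pow_div_factorial_le_exp w hw 3
  simpa [Nat.factorial] using this

lemma six_le_exp (w : ℝ) (hw : 0 ≤ w) : w ^ 6 / 720 ≤ Real.exp w := by
  have := Real.pow_div_factorial_le_exp w hw 6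
  simpa [Nat.factorial] using this

/-- Numerical facts about the parameters. -/
lemma numerics (L y : ℝ) (hL : 200 ≤ L) (hy : y = Real.exp L) :
    10 ^ 10 ≤ y ∧ L ≤ y / 200 ∧ 3840 * y ^ 5 ≤ Real.exp (2 * y / 3) ∧
      y ^ 2 * Real.exp (-(y / 8)) ≤ 1 / 1000 := by
  have h1 : (10 : ℝ) ^ 10 ≤ y := by
    rw [hy]
    have h2 : Real.exp 200 = Real.exp 20 ^ 10 := by
      rw [← Real.exp_nat_mul]; norm_num
    have h3 : (21 : ℝ) ≤ Real.exp 20 := by
      have := Real.add_one_le_exp (20 : ℝ); linarith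
    calc (10 : ℝ) ^ 10 ≤ 21 ^ 10 := by norm_num
      _ ≤ Real.exp 20 ^ 10 := pow_le_pow_left₀ (by norm_num) h3 10
      _ = Real.exp 200 := h2.symm
      _ ≤ Real.exp L := Real.exp_le_exp.mpr hL
  have hy0 : 0 < y := by linarith [show (0:ℝ) < 10 ^ 10 by norm_num]
  refine ⟨h1, ?_, ?_, ?_⟩
  · have h2 := sq_le_exp L (by linarith)
    rw [← hy] at h2
    nlinarith
  · have h3 := six_le_exp (2 * y / 3) (by positivity)
    refine le_trans ?_ h3
    have h4 : (2 * y / 3) ^ 6 / 720 = y ^ 5 * (y * (64 / 729 / 720)) := by ring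
    rw [h4, mul_comm]
    apply mul_le_mul_of_nonneg_left _ (by positivity)
    nlinarith
  · have h3 := cube_le_exp (y / 8) (by positivity)
    have h4 : 1000 * y ^ 2 ≤ Real.exp (y / 8) := by
      refine le_trans ?_ h3
      have h5 : (y / 8) ^ 3 / 6 = y ^ 2 * (y / 3072) := by ring
      rw [h5, mul_comm]
      apply mul_le_mul_of_nonneg_left _ (by positivity)
      linarith
    rw [Real.exp_neg, ← div_eq_mul_inv, div_le_div_iff₀ (Real.exp_pos _) (by norm_num)]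
    linarith

lemma sqrt_le_of (a b : ℝ) (hb : 0 ≤ b) (h : a ≤ b ^ 2) : Real.sqrt a ≤ b :=
  Real.sqrt_le_iff.mpr ⟨hb, h⟩

/-- The parameters. -/
structure Par (l e y u V su B r0 ω : ℝ) : Prop where
  he : e = 1 - l
  he0 : 0 < e
  hl : 0 < l
  hl1 : l < 1
  hl9 : 9 / 10 ≤ l
  hl2 : 1 / 2 ≤ l ^ 2
  hye : y * e = 1
  hy : 10 ^ 10 ≤ y
  hudef : u = 1 - l ^ 2
  hu1 : e ≤ u
  hu2 : u ≤ 2 * e
  hu0 : 0 < u
  husmall : u ≤ 1 / 10 ^ 4
  hVdef : V = 1 / u
  hV0 : 0 < V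
  hVu : V * (1 - l ^ 2) = 1
  hVy : y / 2 ≤ V
  hVy2 : V ≤ y
  hsu : su = Real.sqrt u
  hsu2 : su ^ 2 = u
  hsu0 : 0 < su
  hsue : e ≤ su
  hB3 : B = r0 ^ 3
  hr0 : 0 < r0
  hr01 : r0 ≤ 1
  hω0 : 0 < ω
  hω1 : ω ≤ 1
  hr0sq : r0 ^ 2 = ω * Real.exp (-(8 * y / 3))
  n3 : 3840 * y ^ 5 ≤ Real.exp (2 * y / 3)
  n4 : y ^ 2 * Real.exp (-(y / 8)) ≤ 1 / 1000

section
variable {l e y u V su B r0 ω : ℝ}

lemma Par.hy0 (P : Par l e y u V su B r0 ω) : 0 < y := by
  have := P.hy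
  linarith [show (0:ℝ) < 10 ^ 10 by norm_num]

lemma Par.hy1 (P : Par l e y u V su B r0 ω) : 1 ≤ y := by
  have := P.hy
  linarith [show (1:ℝ) ≤ 10 ^ 10 by norm_num]

lemma Par.hy2 (P : Par l e y u V su B r0 ω) : y ≤ y ^ 2 := by
  have := P.hy1
  nlinarith

lemma Par.hB0 (P : Par l e y u V su B r0 ω) : 0 < B := by
  rw [P.hB3]; exact pow_pos P.hr0 3

lemma Par.hr0y (P : Par l e y u V su B r0 ω) : r0 ^ 2 * y ^ 2 ≤ 1 / 1000 := by
  have hy0 := P.hy0
  have h1 : r0 ^ 2 ≤ Real.exp (-(y / 8)) := by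
    rw [P.hr0sq]
    have h1 : Real.exp (-(8 * y / 3)) ≤ Real.exp (-(y / 8)) := by
      apply Real.exp_le_exp.mpr; linarith
    have h2 := Real.exp_pos (-(8 * y / 3))
    have h3 := P.hω1
    nlinarith
  have h4 := P.n4
  calc r0 ^ 2 * y ^ 2 ≤ Real.exp (-(y / 8)) * y ^ 2 :=
        mul_le_mul_of_nonneg_right h1 (by positivity)
    _ ≤ 1 / 1000 := by linarith

lemma Par.hEVy (P : Par l e y u V su B r0 ω) :
    y ^ 2 * Real.exp (-(V / 4)) ≤ 1 / 1000 := by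
  have hVy := P.hVy
  have hEV : Real.exp (-(V / 4)) ≤ Real.exp (-(y / 8)) := by
    apply Real.exp_le_exp.mpr; linarith
  calc y ^ 2 * Real.exp (-(V / 4)) ≤ y ^ 2 * Real.exp (-(y / 8)) :=
        mul_le_mul_of_nonneg_left hEV (by positivity)
    _ ≤ 1 / 1000 := P.n4

lemma Par.s1 (P : Par l e y u V su B r0 ω) : Real.sqrt (Real.pi / (V / 2)) ≤ 26 / 10 * su := by
  have h0 := P.hsu0
  have hu0 := P.hu0
  apply sqrt_le_of _ _ (by positivity)
  have : Real.pi / (V / 2) = 2 * Real.pi * u := by rw [P.hVdef]; field_simp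
  rw [this, mul_pow, P.hsu2]
  have := Real.pi_lt_d2
  nlinarith

lemma Par.s1' (P : Par l e y u V su B r0 ω) : 2 * su ≤ Real.sqrt (Real.pi / (V / 2)) := by
  have hu0 := P.hu0
  apply Real.le_sqrt_of_sq_le
  have : Real.pi / (V / 2) = 2 * Real.pi * u := by rw [P.hVdef]; field_simp
  rw [this, mul_pow, P.hsu2]
  have := Real.pi_gt_three
  nlinarith

lemma Par.s2 (P : Par l e y u V su B r0 ω) :
    Real.sqrt (Real.pi / ((1 - l) ^ 2)) ≤ 2 * y := by
  have he0 := P.he0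
  have hy0 := P.hy0
  apply sqrt_le_of _ _ (by positivity)
  rw [← P.he, div_le_iff₀ (by positivity)]
  have : (2 * y) ^ 2 * e ^ 2 = 4 * (y * e) ^ 2 := by ring
  rw [this, P.hye]
  linarith [Real.pi_lt_d2]

lemma Par.s3 (P : Par l e y u V su B r0 ω) :
    Real.sqrt (Real.pi / (r0 ^ 2 / 2)) ≤ 3 / r0 := by
  have hr0 := P.hr0
  apply sqrt_le_of _ _ (by positivity)
  rw [div_le_iff₀ (by positivity)]
  have : (3 / r0) ^ 2 * (r0 ^ 2 / 2) = 9 / 2 := by field_simp; norm_num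
  rw [this]
  linarith [Real.pi_lt_d2]

lemma Par.s4 (P : Par l e y u V su B r0 ω) :
    Real.sqrt (Real.pi / ((l * r0) ^ 2 / 2)) ≤ 3 / r0 := by
  have hr0 := P.hr0
  have hl := P.hl
  have hl9 := P.hl9
  apply sqrt_le_of _ _ (by positivity)
  rw [div_le_iff₀ (by positivity)]
  have : (3 / r0) ^ 2 * ((l * r0) ^ 2 / 2) = 9 / 2 * l ^ 2 := by field_simp; norm_num
  rw [this]
  nlinarith [Real.pi_lt_d2]

lemma Par.s5 (P : Par l e y u V su B r0 ω) :
    Real.sqrt (Real.pi / (V / 4)) ≤ 4 * su := by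
  have h0 := P.hsu0
  have hu0 := P.hu0
  apply sqrt_le_of _ _ (by positivity)
  have : Real.pi / (V / 4) = 4 * Real.pi * u := by rw [P.hVdef]; field_simp
  rw [this, mul_pow, P.hsu2]
  have := Real.pi_lt_d2
  nlinarith

lemma Par.hBr0 (P : Par l e y u V su B r0 ω) : B * (3 / r0) = 3 * r0 ^ 2 := by
  have hr0 := P.hr0
  rw [P.hB3]; field_simp

lemma Par.hsmall (P : Par l e y u V su B r0 ω) :
    3 * Real.exp (-(V / 4)) * (2 * y) + 3 * r0 ^ 2 ≤ 1 / 100 * su := by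
  have he0 := P.he0
  have hye := P.hye
  have h1 := P.hEVy
  have h2 := P.hr0y
  have h3 := P.hsue
  have h4 := P.hy1
  have e1 : y ^ 2 * e = y := by rw [sq, mul_assoc, hye, mul_one]
  have a1 : 3 * Real.exp (-(V / 4)) * (2 * y) = 6 * (y ^ 2 * Real.exp (-(V / 4))) * e := by
    calc 3 * Real.exp (-(V / 4)) * (2 * y) = 6 * Real.exp (-(V / 4)) * y := by ring
      _ = 6 * Real.exp (-(V / 4)) * (y ^ 2 * e) := by rw [e1]
      _ = _ := by ring
  have a2 : r0 ^ 2 ≤ (r0 ^ 2 * y ^ 2) * e := by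
    rw [mul_assoc, e1]
    nlinarith [sq_nonneg r0]
  rw [a1]
  have a3 : 6 * (y ^ 2 * Real.exp (-(V / 4))) * e ≤ 6 * (1 / 1000) * e := by
    apply mul_le_mul_of_nonneg_right _ he0.le
    linarith
  have a4 : (r0 ^ 2 * y ^ 2) * e ≤ (1 / 1000) * e :=
    mul_le_mul_of_nonneg_right h2 he0.le
  linarith

lemma Par.hkey (P : Par l e y u V su B r0 ω) :
    6 * r0 ^ 2 * y ^ 3 ≤ (ω * su / 40) * (u / 16) * Real.exp (-(2 / (1 - l))) := by
  have he0 := P.he0
  have hye := P.hye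
  have hω0 := P.hω0
  have hsu0 := P.hsu0
  have hsue := P.hsue
  have hu1 := P.hu1
  have hu0 := P.hu0
  have n3 := P.n3
  have c0 : 2 / (1 - l) = 2 * y := by
    rw [← P.he, div_eq_iff he0.ne', mul_assoc, hye, mul_one]
  rw [c0, P.hr0sq]
  have c1 : Real.exp (-(8 * y / 3)) = Real.exp (-(2 * y)) * Real.exp (-(2 * y / 3)) := by
    rw [← Real.exp_add]; congr 1; ring
  rw [c1]
  have c2 : 6 * y ^ 3 * Real.exp (-(2 * y / 3)) ≤ su / 40 * (u / 16) := by
    rw [Real.exp_neg, ← div_eq_mul_inv, div_le_iff₀ (Real.exp_pos _)]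
    have c3 : e ^ 2 ≤ su * u := by
      rw [sq]; exact mul_le_mul hsue hu1 he0.le hsu0.le
    have c4 : 3840 * y ^ 3 ≤ e ^ 2 * Real.exp (2 * y / 3) := by
      have c5 : e ^ 2 * (3840 * y ^ 5) ≤ e ^ 2 * Real.exp (2 * y / 3) :=
        mul_le_mul_of_nonneg_left n3 (by positivity)
      have c6 : e ^ 2 * (3840 * y ^ 5) = 3840 * y ^ 3 := by
        have : e ^ 2 * (3840 * y ^ 5) = 3840 * y ^ 3 * (y * e) ^ 2 := by ring
        rw [this, hye]; ring
      linarith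
    have c7 : e ^ 2 * Real.exp (2 * y / 3) ≤ su * u * Real.exp (2 * y / 3) :=
      mul_le_mul_of_nonneg_right c3 (Real.exp_pos _).le
    linarith
  calc 6 * (ω * (Real.exp (-(2 * y)) * Real.exp (-(2 * y / 3)))) * y ^ 3
      = (ω * Real.exp (-(2 * y))) * (6 * y ^ 3 * Real.exp (-(2 * y / 3))) := by ring
    _ ≤ (ω * Real.exp (-(2 * y))) * (su / 40 * (u / 16)) :=
        mul_le_mul_of_nonneg_left c2 (by positivity)
    _ = ω * su / 40 * (u / 16) * Real.exp (-(2 * y)) := by ring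

variable {μ : Measure ℝ} [IsProbabilityMeasure μ]

lemma Par.PPu (P : Par l e y u V su B r0 ω) (h : SS l μ)
    (hB : ∀ x ξ, 1 / (1 - l) ≤ |ξ| → |mm μ x ξ| ≤ B) (r x : ℝ) (hr : r0 ≤ r) :
    PP μ r x ≤ 3 * su := by
  refine (PP_upper h P.hl P.hl1 P.hl2 V P.hV0 P.hVu B hB r0 r P.hr0 hr x).trans ?_
  have b1 : 3 * Real.exp (-(V / 4)) * Real.sqrt (Real.pi / ((1 - l) ^ 2))
      ≤ 3 * Real.exp (-(V / 4)) * (2 * y) :=
    mul_le_mul_of_nonneg_left P.s2 (by positivity)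
  have b2 : B * Real.sqrt (Real.pi / (r0 ^ 2 / 2)) ≤ B * (3 / r0) :=
    mul_le_mul_of_nonneg_left P.s3 P.hB0.le
  rw [P.hBr0] at b2
  have b3 := P.s1
  have b4 := P.hsmall
  have b5 := P.hsu0
  linarith

lemma Par.PPl (P : Par l e y u V su B r0 ω) (h : SS l μ)
    (hB : ∀ x ξ, 1 / (1 - l) ≤ |ξ| → |mm μ x ξ| ≤ B) (x : ℝ) (hx : (1 - l ^ 2) * x ^ 2 ≤ 4) :
    su / 10 ≤ PP μ r0 x := by
  have hrV : r0 ^ 2 * V ≤ 1 := by
    calc r0 ^ 2 * V ≤ r0 ^ 2 * y ^ 2 :=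
          mul_le_mul_of_nonneg_left (P.hVy2.trans P.hy2) (by positivity)
      _ ≤ 1 := by linarith [P.hr0y]
  have b0 := PP_lower h P.hl P.hl1 P.hl2 V P.hV0 P.hVu B hB r0 P.hr0 hrV x
  have b1 : 3 * Real.exp (-(V / 4)) * Real.sqrt (Real.pi / ((1 - l) ^ 2))
      ≤ 3 * Real.exp (-(V / 4)) * (2 * y) :=
    mul_le_mul_of_nonneg_left P.s2 (by positivity)
  have b2 : B * Real.sqrt (Real.pi / (r0 ^ 2 / 2)) ≤ B * (3 / r0) :=
    mul_le_mul_of_nonneg_left P.s3 P.hB0.le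
  rw [P.hBr0] at b2
  have b3 : 5 / V + Real.exp (-(V / 4)) ≤ 1 / 100 := by
    have hu0 := P.hu0
    have c1 : 5 / V = 5 * u := by rw [P.hVdef]; field_simp
    rw [c1]
    have c2 : Real.exp (-(V / 4)) ≤ y ^ 2 * Real.exp (-(V / 4)) := by
      have d1 : 1 ≤ y ^ 2 := one_le_pow₀ P.hy1
      have d2 := Real.exp_pos (-(V / 4))
      nlinarith
    have c3 := P.hEVy
    have c4 := P.husmall
    norm_num at c4 ⊢
    linarith
  have b4 : (5 / V + Real.exp (-(V / 4))) * Real.sqrt (Real.pi / (V / 4))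
      ≤ 1 / 100 * (4 * su) :=
    mul_le_mul b3 P.s5 (Real.sqrt_nonneg _) (by norm_num)
  have b5 : 1 / 8 ≤ Real.exp (-x ^ 2 / (4 * (V / 2))) := by
    have hu0 := P.hu0
    have c1 : -x ^ 2 / (4 * (V / 2)) = -(u * x ^ 2 / 2) := by
      rw [P.hVdef]
      have : (4 * (1 / u / 2)) = 2 / u := by ring
      rw [this, div_div_eq_mul_div]; ring
    rw [c1]
    rw [← P.hudef] at hx
    have c2 : -2 ≤ -(u * x ^ 2 / 2) := by linarith
    refine le_trans ?_ (Real.exp_le_exp.mpr c2)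
    have c3 : Real.exp (-2) = (Real.exp 1 ^ 2)⁻¹ := by
      rw [← Real.exp_nat_mul, ← Real.exp_neg]; norm_num
    rw [c3, one_div]
    apply inv_anti₀ (by positivity)
    have c4 := Real.exp_one_lt_d9
    have c5 : Real.exp 1 ^ 2 ≤ 2.7182818286 ^ 2 :=
      pow_le_pow_left₀ (Real.exp_pos 1).le c4.le 2
    norm_num at c5 ⊢
    linarith
  have b6 : 2 * su * (1 / 8)
      ≤ Real.sqrt (Real.pi / (V / 2)) * Real.exp (-x ^ 2 / (4 * (V / 2))) :=
    mul_le_mul P.s1' b5 (by norm_num) (Real.sqrt_nonneg _)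
  have b7 := (abs_le.mp b0).1
  have b8 := P.hsmall
  have b9 := P.hsu0
  linarith

lemma Par.PPs (P : Par l e y u V su B r0 ω)
    (hB : ∀ x ξ, 1 / (1 - l) ≤ |ξ| → |mm μ x ξ| ≤ B) (x : ℝ) :
    PP μ (l * r0) x ≤ PP μ r0 x + 6 * r0 ^ 2 * y ^ 3 := by
  have b0 := PP_step (μ := μ) P.hl P.hl1 B hB r0 P.hr0 x
  have b1 : 3 * (r0 ^ 2 / (2 * (1 - l) ^ 2)) * Real.sqrt (Real.pi / ((1 - l) ^ 2))
      ≤ 3 * (r0 ^ 2 / (2 * (1 - l) ^ 2)) * (2 * y) :=
    mul_le_mul_of_nonneg_left P.s2 (by positivity)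
  have b1' : 3 * (r0 ^ 2 / (2 * (1 - l) ^ 2)) * (2 * y) = 3 * r0 ^ 2 * y ^ 3 := by
    have he0 := P.he0
    have hy : y = 1 / e := by rw [eq_div_iff he0.ne']; exact P.hye
    rw [← P.he, hy]; field_simp
  have b2 : B * Real.sqrt (Real.pi / ((l * r0) ^ 2 / 2)) ≤ B * (3 / r0) :=
    mul_le_mul_of_nonneg_left P.s4 P.hB0.le
  rw [P.hBr0] at b2
  have b3 : r0 ^ 2 ≤ r0 ^ 2 * y ^ 3 := by
    have : 1 ≤ y ^ 3 := one_le_pow₀ P.hy1
    nlinarith [sq_nonneg r0]
  have b4 := (abs_le.mp b0).2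
  linarith

/-- The supersolution. -/
noncomputable def psi (μ : Measure ℝ) (l su r0 ω x : ℝ) : ℝ :=
  PP μ r0 x + (ω * su / 40) * chi l x

omit [IsProbabilityMeasure μ] in
lemma Par.tau0 (P : Par l e y u V su B r0 ω) : 0 < ω * su / 40 := by
  have h1 := P.hω0
  have h2 := P.hsu0
  positivity

omit [IsProbabilityMeasure μ] in
lemma Par.psi_nonneg (P : Par l e y u V su B r0 ω) (x : ℝ) : 0 ≤ psi μ l su r0 ω x := by
  unfold psi
  have h1 := PP_nonneg (μ := μ) r0 x P.hr0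
  have h2 := chi_pos l x
  have h3 := P.tau0
  positivity

omit [IsProbabilityMeasure μ] in
lemma Par.chi_le_one (P : Par l e y u V su B r0 ω) (x : ℝ) : chi l x ≤ 1 := by
  unfold chi
  apply Real.exp_le_one_iff.mpr
  rw [← P.hudef]
  have := P.hu0
  have : 0 ≤ l ^ 2 * u / 4 * x ^ 2 := by positivity
  linarith

lemma Par.psi_le (P : Par l e y u V su B r0 ω) (h : SS l μ)
    (hB : ∀ x ξ, 1 / (1 - l) ≤ |ξ| → |mm μ x ξ| ≤ B) (x : ℝ) :
    psi μ l su r0 ω x ≤ 4 * su := by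
  unfold psi
  have h1 := P.PPu h hB r0 x le_rfl
  have h2 := P.chi_le_one x
  have h3 : (ω * su / 40) * chi l x ≤ (ω * su / 40) * 1 :=
    mul_le_mul_of_nonneg_left h2 P.tau0.le
  have h4 : ω * su / 40 ≤ su := by
    have := P.hω1
    have := P.hsu0
    nlinarith
  linarith

lemma Par.psi_init (P : Par l e y u V su B r0 ω) (x : ℝ) :
    μ.real (Metric.closedBall x r0) ≤ r0 * psi μ l su r0 ω x := by
  refine (ball_le_PP x r0 P.hr0).trans ?_
  apply mul_le_mul_of_nonneg_left _ P.hr0.le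
  unfold psi
  have h2 := chi_pos l x
  have h3 := P.tau0
  have : 0 ≤ (ω * su / 40) * chi l x := by positivity
  linarith

lemma Par.psi_T (P : Par l e y u V su B r0 ω) (h : SS l μ)
    (hB : ∀ x ξ, 1 / (1 - l) ≤ |ξ| → |mm μ x ξ| ≤ B) (x : ℝ) (hx : |x| ≤ 2 / (1 - l)) :
    (psi μ l su r0 ω ((x - 1) / l) + psi μ l su r0 ω ((x + 1) / l)) / (2 * l)
      ≤ (1 + ω) * psi μ l su r0 ω x := by
  have hτ0 := P.tau0
  have hω0 := P.hω0
  have hkey := P.hkey
  have hexp1 : Real.exp (-(2 / (1 - l))) ≤ 1 := by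
    apply Real.exp_le_one_iff.mpr
    have h1 := P.he0
    have : 0 < 2 / (1 - l) := by rw [← P.he]; positivity
    linarith
  have husmall := P.husmall
  have hu0 := P.hu0
  have hudef := P.hudef
  have e1 : (psi μ l su r0 ω ((x - 1) / l) + psi μ l su r0 ω ((x + 1) / l)) / (2 * l)
      = PP μ (l * r0) x
        + (ω * su / 40) * ((chi l ((x - 1) / l) + chi l ((x + 1) / l)) / (2 * l)) := by
    rw [← PP_self P.hl h r0 x P.hr0]
    unfold psi
    ring
  rw [e1]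
  have h1 := P.PPs hB x
  have h2 := chi_pos l x
  have h3 := PP_nonneg (μ := μ) r0 x P.hr0
  have hu4 : 1 - l ^ 2 ≤ 1 / 4 := by rw [← hudef]; norm_num at husmall ⊢; linarith
  rcases le_total ((1 - l ^ 2) * x ^ 2) 4 with hc | hc
  · have h4 := chi_all l P.hl P.hl1 hu4 x
    have h5 := P.PPl h hB x hc
    unfold psi
    generalize hτ : ω * su / 40 = τ at *
    have h6 : τ * ((chi l ((x - 1) / l) + chi l ((x + 1) / l)) / (2 * l)) ≤ τ * 2 :=
      mul_le_mul_of_nonneg_left h4 hτ0.le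
    have h7 : 6 * r0 ^ 2 * y ^ 3 ≤ τ := by
      refine hkey.trans ?_
      have a1 : τ * (u / 16) * Real.exp (-(2 / (1 - l))) ≤ τ * (u / 16) * 1 :=
        mul_le_mul_of_nonneg_left hexp1 (by positivity)
      refine a1.trans ?_
      have a2 : u / 16 ≤ 1 := by norm_num at husmall; linarith
      have a3 : τ * (u / 16) ≤ τ * 1 := mul_le_mul_of_nonneg_left a2 hτ0.le
      linarith
    have h8 : 4 * τ = ω * (su / 10) := by rw [← hτ]; ring
    have h9 : ω * (su / 10) ≤ ω * PP μ r0 x := mul_le_mul_of_nonneg_left h5 hω0.le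
    have h10 : 0 ≤ τ * chi l x := by positivity
    have h11 : 0 ≤ ω * (τ * chi l x) := by positivity
    have h12 : (1 + ω) * (PP μ r0 x + τ * chi l x)
        = PP μ r0 x + τ * chi l x + ω * PP μ r0 x + ω * (τ * chi l x) := by ring
    rw [h12]
    linarith
  · have h4 := chi_outer l P.hl P.hl1 hu4 x hc
    have h5 := chi_lower l P.hl P.hl1 x hx
    rw [← hudef] at h4
    have h11 : 0 ≤ ω * psi μ l su r0 ω x := mul_nonneg hω0.le (P.psi_nonneg x)
    have h12 : (1 + ω) * psi μ l su r0 ω x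
        = PP μ r0 x + (ω * su / 40) * chi l x + ω * psi μ l su r0 ω x := by
      rw [add_mul, one_mul]; rfl
    rw [h12]
    generalize ω * psi μ l su r0 ω x = Z at *
    generalize hτ : ω * su / 40 = τ at *
    have h6 : τ * ((chi l ((x - 1) / l) + chi l ((x + 1) / l)) / (2 * l))
        ≤ τ * (Real.exp (-(u / 8)) * chi l x) := mul_le_mul_of_nonneg_left h4 hτ0.le
    have h7 : Real.exp (-(u / 8)) ≤ 1 - u / 16 := by
      have a1 := Real.add_one_le_exp (u / 8)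
      rw [Real.exp_neg]
      rw [inv_le_iff_one_le_mul₀ (Real.exp_pos _)]
      have a2 : 0 ≤ 1 - u / 16 := by norm_num at husmall; linarith
      have a3 : (1 - u / 16) * (u / 8 + 1) ≤ (1 - u / 16) * Real.exp (u / 8) :=
        mul_le_mul_of_nonneg_left a1 a2
      refine le_trans ?_ a3
      norm_num at husmall
      nlinarith
    have h8 : Real.exp (-(u / 8)) * chi l x ≤ (1 - u / 16) * chi l x :=
      mul_le_mul_of_nonneg_right h7 h2.le
    have h9 : τ * (Real.exp (-(u / 8)) * chi l x) ≤ τ * ((1 - u / 16) * chi l x) :=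
      mul_le_mul_of_nonneg_left h8 hτ0.le
    have h10 : 6 * r0 ^ 2 * y ^ 3 ≤ τ * (u / 16) * chi l x :=
      hkey.trans (mul_le_mul_of_nonneg_left h5 (by positivity))
    have h13 : τ * ((1 - u / 16) * chi l x) = τ * chi l x - τ * (u / 16) * chi l x := by ring
    linarith

end

/-- Existence of the parameters. -/
lemma par_exists (l : ℝ) (hl0 : 1 - Real.exp (-200) < l) (hl1 : l < 1) :
    ∃ e L y u V su B r0 ω : ℝ, Par l e y u V su B r0 ω ∧ L = -Real.log e ∧ 200 ≤ L ∧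
      y = 1 / e ∧ L ≤ y / 200 ∧ B = Real.exp (-((L / 4 - 2) / e)) ∧
      ω = Real.exp (-((L / 6 - 4) * y)) := by
  obtain ⟨e, he⟩ : ∃ e, e = 1 - l := ⟨_, rfl⟩
  have he0 : 0 < e := by linarith
  have helt : e < Real.exp (-200) := by linarith
  obtain ⟨L, hLdef⟩ : ∃ L, L = -Real.log e := ⟨_, rfl⟩
  have hL : 200 ≤ L := by
    have h1 : Real.log e < -200 := by
      rw [Real.log_lt_iff_lt_exp he0]; exact helt
    linarith
  obtain ⟨y, hydef⟩ : ∃ y, y = 1 / e := ⟨_, rfl⟩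
  have hyL : y = Real.exp L := by
    rw [hydef, hLdef, Real.exp_neg, Real.exp_log he0, one_div]
  have hye : y * e = 1 := by rw [hydef]; field_simp
  have hey : e = 1 / y := by rw [hydef]; field_simp
  obtain ⟨n1, n2, n3, n4⟩ := numerics L y hL hyL
  have hy0 : 0 < y := by linarith [show (0:ℝ) < 10 ^ 10 by norm_num]
  have hysmall : e ≤ 1 / 10 ^ 10 := by
    rw [hey]; exact one_div_le_one_div_of_le (by norm_num) n1
  have hl9 : 9 / 10 ≤ l := by
    have : (1:ℝ) / 10 ^ 10 < 1 / 10 := by norm_num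
    linarith
  have hl : 0 < l := by linarith
  obtain ⟨u, hudef⟩ : ∃ u, u = 1 - l ^ 2 := ⟨_, rfl⟩
  have hue : u = e * (1 + l) := by rw [hudef, he]; ring
  have hu1 : e ≤ u := by rw [hue]; nlinarith
  have hu2 : u ≤ 2 * e := by rw [hue]; nlinarith
  have hu0 : 0 < u := by linarith
  have husmall : u ≤ 1 / 10 ^ 4 := by
    have : 2 * ((1:ℝ) / 10 ^ 10) ≤ 1 / 10 ^ 4 := by norm_num
    linarith
  have hl2 : 1 / 2 ≤ l ^ 2 := by nlinarith
  obtain ⟨r0, hr0def⟩ : ∃ r0, r0 = Real.exp (-((L / 12 - 2 / 3) / e)) := ⟨_, rfl⟩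
  obtain ⟨ω, hωdef⟩ : ∃ ω, ω = Real.exp (-((L / 6 - 4) * y)) := ⟨_, rfl⟩
  refine ⟨e, L, y, u, 1 / u, Real.sqrt u, Real.exp (-((L / 4 - 2) / e)), r0, ω, ?_, hLdef, hL,
    hydef, n2, rfl, hωdef⟩
  constructor
  · exact he
  · exact he0
  · exact hl
  · exact hl1
  · exact hl9
  · exact hl2
  · exact hye
  · exact n1
  · exact hudef
  · exact hu1
  · exact hu2
  · exact hu0
  · exact husmall
  · rfl
  · positivity
  · rw [← hudef]; field_simp
  · rw [le_div_iff₀ hu0]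
    nlinarith
  · rw [div_le_iff₀ hu0]
    nlinarith
  · rfl
  · exact Real.sq_sqrt hu0.le
  · exact Real.sqrt_pos.mpr hu0
  · apply Real.le_sqrt_of_sq_le
    nlinarith
  · rw [hr0def, ← Real.exp_nat_mul]
    congr 1
    push_cast
    ring
  · rw [hr0def]; exact Real.exp_pos _
  · rw [hr0def]
    apply Real.exp_le_one_iff.mpr
    have : 0 ≤ (L / 12 - 2 / 3) / e := by
      apply div_nonneg _ he0.le; linarith
    linarith
  · rw [hωdef]; exact Real.exp_pos _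
  · rw [hωdef]
    apply Real.exp_le_one_iff.mpr
    have : 0 ≤ (L / 6 - 4) * y := by
      apply mul_nonneg _ hy0.le; linarith
    linarith
  · rw [hr0def, hωdef, ← Real.exp_nat_mul, ← Real.exp_add]
    congr 1
    rw [div_eq_mul_one_div _ e, ← hydef]
    push_cast
    ring
  · exact n3
  · exact n4

lemma delta_bound (l e L y δ ω : ℝ) (he : e = 1 - l) (he0 : 0 < e) (hl : 0 < l)
    (hL : L = -Real.log e) (hL200 : 200 ≤ L) (hy0 : 0 < y) (hLy : L ≤ y / 200)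
    (hω : ω = Real.exp (-((L / 6 - 4) * y)))
    (hδ : δ = Real.exp (-(L * y / 7))) : 1 + ω ≤ l ^ (-δ) := by
  have hδ0 : 0 < δ := by rw [hδ]; exact Real.exp_pos _
  have a1 : ω ≤ δ * e := by
    have a0 : e = Real.exp (-L) := by rw [hL, neg_neg, Real.exp_log he0]
    rw [hω, hδ, a0, ← Real.exp_add]
    apply Real.exp_le_exp.mpr
    have a2 : 0 ≤ (L - 200) * y := mul_nonneg (by linarith) hy0.le
    linarith
  have a3 : e ≤ -Real.log l := by
    have := Real.log_le_sub_one_of_pos hl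
    linarith
  rw [Real.rpow_def_of_pos hl]
  have a4 := Real.add_one_le_exp (Real.log l * -δ)
  have a5 : δ * e ≤ δ * (-Real.log l) := mul_le_mul_of_nonneg_left a3 hδ0.le
  linarith

/-- **Main theorem.** -/
theorem frostman (l : ℝ) (hl0 : 1 - Real.exp (-200) < l) (hl1 : l < 1) (μ : Measure ℝ)
    [IsProbabilityMeasure μ] (h : SS l μ) (x r : ℝ) (hr : 0 < r) (hr1 : r ≤ 1) :
    μ.real (Metric.closedBall x r)
      ≤ 12 * Real.sqrt (1 - l) * r ^ (1 - (1 - l) ^ (1 / (7 * (1 - l)))) := by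
  obtain ⟨e, L, y, u, V, su, B, r0, ω, P, hL, hL200, hy, hLy, hBdef, hω⟩ := par_exists l hl0 hl1
  have hB : ∀ x ξ, 1 / (1 - l) ≤ |ξ| → |mm μ x ξ| ≤ B := by
    intro x ξ hξ
    have := mm_big h P.hl P.hl1 P.hl9 x ξ hξ
    rw [← P.he, ← hL] at this
    rw [hBdef]; exact this
  obtain ⟨δ, hδdef⟩ : ∃ δ, δ = (1 - l) ^ (1 / (7 * (1 - l))) := ⟨_, rfl⟩
  have he0 := P.he0
  have hy0 := P.hy0
  have hδexp : δ = Real.exp (-(L * y / 7)) := by
    rw [hδdef, ← P.he, Real.rpow_def_of_pos he0]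
    congr 1
    rw [hL, hy]
    field_simp
  have hδ0 : 0 < δ := by rw [hδexp]; exact Real.exp_pos _
  have hδ1 : δ ≤ 1 := by
    rw [hδexp]
    apply Real.exp_le_one_iff.mpr
    have : 0 ≤ L * y / 7 := by positivity
    linarith
  have hωδ : 1 + ω ≤ l ^ (-δ) :=
    delta_bound l e L y δ ω P.he he0 P.hl hL hL200 hy0 hLy hω hδexp
  rw [← hδdef, ← P.he]
  have hsu0 := P.hsu0
  have hsqe : su ≤ 3 / 2 * Real.sqrt e := by
    rw [P.hsu]
    apply sqrt_le_of _ _ (by positivity)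
    rw [mul_pow, Real.sq_sqrt he0.le]
    linarith [P.hu2]
  have hse0 : 0 ≤ Real.sqrt e := Real.sqrt_nonneg _
  rcases le_total r r0 with hrr | hrr
  · have hl12 : (1:ℝ) / 2 < l := by linarith [P.hl9]
    have hg := frostman_of_geom (μ := μ) hl12 hl1 r0 P.hr0 P.hr01 (4 * su)
      (by positivity) ω δ P.hω0.le hδ0.le hδ1 hωδ x
      (fun m => (transfer hl12 hl1 h r0 P.hr0 P.hr01 (psi μ l su r0 ω) P.psi_nonneg ω P.hω0.le
        P.psi_init (P.psi_T h hB) m x).trans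
          (mul_le_mul_of_nonneg_left (P.psi_le h hB x)
            (by have := P.hr0; have := P.hl; have := P.hω0; positivity))) r hr hrr
    refine hg.trans ?_
    apply mul_le_mul_of_nonneg_right _ (Real.rpow_nonneg hr.le _)
    linarith
  · have h1 := ball_le_PP (μ := μ) x r hr
    have h2 := P.PPu h hB r x hrr
    have h3 : r * PP μ r x ≤ r * (3 * su) := mul_le_mul_of_nonneg_left h2 hr.le
    have h4 : r ≤ r ^ (1 - δ) := by
      calc r = r ^ (1 : ℝ) := (Real.rpow_one r).symm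
        _ ≤ r ^ (1 - δ) := Real.rpow_le_rpow_of_exponent_ge hr hr1 (by linarith)
    calc μ.real (Metric.closedBall x r) ≤ r * (3 * su) := h1.trans h3
      _ ≤ r ^ (1 - δ) * (12 * Real.sqrt e) := by
          apply mul_le_mul h4 _ (by positivity) (Real.rpow_nonneg hr.le _)
          linarith
      _ = 12 * Real.sqrt e * r ^ (1 - δ) := by ring

end Pool.Agent.Work.BCF
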