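import Mathlib

set_option autoImplicit false

open MeasureTheory Filter Topology

namespace Pool.Agent.Work.BCF

/-- The self-similarity relation of the Bernoulli convolution with parameter `l`. -/
def SS (l : ℝ) (μ : Measure ℝ) : Prop :=
  μ = (1/2 : ENNReal) • μ.map (fun x : ℝ => l * x + 1)
      + (1/2 : ENNReal) • μ.map (fun x : ℝ => l * x - 1)

section
variable {l : ℝ} {μ : Measure ℝ} [IsProbabilityMeasure μ]

lemma meas_self (h : SS l μ) (A : Set ℝ) (hA : MeasurableSet A) :
    μ.real A = (1/2) * μ.real ((fun x : ℝ => l * x + 1) ⁻¹' A)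
      + (1/2) * μ.real ((fun x : ℝ => l * x - 1) ⁻¹' A) := by
  have m1 : Measurable (fun x : ℝ => l * x + 1) := by fun_prop
  have m2 : Measurable (fun x : ℝ => l * x - 1) := by fun_prop
  have e : μ A = ((1/2 : ENNReal) • μ.map (fun x : ℝ => l * x + 1)
      + (1/2 : ENNReal) • μ.map (fun x : ℝ => l * x - 1)) A := by
    exact congrArg (fun ν : Measure ℝ => ν A) h
  rw [Measure.add_apply, Measure.smul_apply, Measure.smul_apply, Measure.map_apply m1 hA,
    Measure.map_apply m2 hA] at e
  unfold Measure.real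
  rw [e, ENNReal.toReal_add]
  · simp [smul_eq_mul, ENNReal.toReal_mul]
  · exact ENNReal.mul_ne_top (by simp) (measure_ne_top _ _)
  · exact ENNReal.mul_ne_top (by simp) (measure_ne_top _ _)

lemma int_self (h : SS l μ) (f : ℝ → ℝ) (hf : Continuous f) (C : ℝ) (hC : ∀ y, |f y| ≤ C) :
    ∫ y, f y ∂μ = (1/2) * (∫ y, f (l * y + 1) ∂μ) + (1/2) * (∫ y, f (l * y - 1) ∂μ) := by
  have m1 : Measurable (fun x : ℝ => l * x + 1) := by fun_prop
  have m2 : Measurable (fun x : ℝ => l * x - 1) := by fun_prop
  have p1 : IsProbabilityMeasure (μ.map (fun x : ℝ => l * x + 1)) :=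
    Measure.isProbabilityMeasure_map m1.aemeasurable
  have p2 : IsProbabilityMeasure (μ.map (fun x : ℝ => l * x - 1)) :=
    Measure.isProbabilityMeasure_map m2.aemeasurable
  have i1 : Integrable f ((1/2 : ENNReal) • μ.map (fun x : ℝ => l * x + 1)) := by
    apply Integrable.smul_measure _ (by simp)
    exact Integrable.of_bound hf.aestronglyMeasurable C (ae_of_all _ hC)
  have i2 : Integrable f ((1/2 : ENNReal) • μ.map (fun x : ℝ => l * x - 1)) := by
    apply Integrable.smul_measure _ (by simp)
    exact Integrable.of_bound hf.aestronglyMeasurable C (ae_of_all _ hC)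
  have e : ∫ y, f y ∂μ = ∫ y, f y ∂((1/2 : ENNReal) • μ.map (fun x : ℝ => l * x + 1)
      + (1/2 : ENNReal) • μ.map (fun x : ℝ => l * x - 1)) :=
    congrArg (fun ν : Measure ℝ => ∫ y, f y ∂ν) h
  rw [e, integral_add_measure i1 i2, integral_smul_measure, integral_smul_measure,
    integral_map m1.aemeasurable hf.aestronglyMeasurable,
    integral_map m2.aemeasurable hf.aestronglyMeasurable]
  simp [smul_eq_mul]

lemma ball_self (hl : 0 < l) (h : SS l μ) (x r : ℝ) :
    μ.real (Metric.closedBall x (l * r)) =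
      (1/2) * μ.real (Metric.closedBall ((x - 1) / l) r)
      + (1/2) * μ.real (Metric.closedBall ((x + 1) / l) r) := by
  rw [meas_self h _ measurableSet_closedBall]
  congr 2
  · congr 1
    ext y
    simp only [Set.mem_preimage, Metric.mem_closedBall, Real.dist_eq]
    have : l * y + 1 - x = l * (y - (x - 1) / l) := by field_simp; ring
    rw [this, abs_mul, abs_of_pos hl]
    constructor
    · intro h; exact le_of_mul_le_mul_left h hl
    · intro h; exact mul_le_mul_of_nonneg_left h hl.le
  · congr 1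
    ext y
    simp only [Set.mem_preimage, Metric.mem_closedBall, Real.dist_eq]
    have : l * y - 1 - x = l * (y - (x + 1) / l) := by field_simp; ring
    rw [this, abs_mul, abs_of_pos hl]
    constructor
    · intro h; exact le_of_mul_le_mul_left h hl
    · intro h; exact mul_le_mul_of_nonneg_left h hl.le

lemma tail_step (hl : 0 < l) (h : SS l μ) (R : ℝ) :
    μ.real {y | R < |y|} ≤ μ.real {y | (R - 1) / l < |y|} := by
  have hm : MeasurableSet {y : ℝ | R < |y|} := by
    exact measurableSet_lt measurable_const (by fun_prop)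
  rw [meas_self h _ hm]
  have a1 : μ.real ((fun x : ℝ => l * x + 1) ⁻¹' {y : ℝ | R < |y|})
      ≤ μ.real {y | (R - 1) / l < |y|} := by
    apply measureReal_mono _ (measure_ne_top _ _)
    intro y hy
    simp only [Set.mem_preimage, Set.mem_ofPred_eq] at hy ⊢
    rw [div_lt_iff₀ hl]
    have : |l * y + 1| ≤ l * |y| + 1 := by
      calc |l * y + 1| ≤ |l * y| + |(1:ℝ)| := abs_add_le _ _
        _ = l * |y| + 1 := by rw [abs_mul, abs_of_pos hl, abs_one]
    linarith
  have a2 : μ.real ((fun x : ℝ => l * x - 1) ⁻¹' {y : ℝ | R < |y|})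
      ≤ μ.real {y | (R - 1) / l < |y|} := by
    apply measureReal_mono _ (measure_ne_top _ _)
    intro y hy
    simp only [Set.mem_preimage, Set.mem_ofPred_eq] at hy ⊢
    rw [div_lt_iff₀ hl]
    have : |l * y - 1| ≤ l * |y| + 1 := by
      calc |l * y - 1| ≤ |l * y| + |(1:ℝ)| := abs_sub _ _
        _ = l * |y| + 1 := by rw [abs_mul, abs_of_pos hl, abs_one]
    linarith
  linarith

lemma tail_zero (hl : 0 < l) (hl1 : l < 1) (h : SS l μ) (R : ℝ) (hR : 1 / (1 - l) < R) :
    μ {y | R < |y|} = 0 := by
  have he : 0 < 1 - l := by linarith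
  set c : ℝ := 1 / (1 - l) with hc
  have hcl : (c - 1) / l = c := by
    rw [hc]; field_simp; ring
  set Rj : ℕ → ℝ := fun j => c + (R - c) / l ^ j with hRj
  have hRj1 : ∀ j, (Rj j - 1) / l = Rj (j + 1) := by
    intro j
    have h1 : (Rj j - 1) / l = (c - 1) / l + (R - c) / l ^ j / l := by
      rw [hRj]; ring
    rw [h1, hcl, hRj]
    simp only [pow_succ]
    rw [div_div]
  have hle : ∀ j, μ.real {y | R < |y|} ≤ μ.real {y | Rj j < |y|} := by
    intro j
    induction j with
    | zero => simp [hRj]
    | succ j ih =>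
      refine ih.trans ?_
      rw [← hRj1 j]
      exact tail_step hl h (Rj j)
  have hmono : Monotone Rj := by
    apply monotone_nat_of_le_succ
    intro j
    simp only [hRj]
    have h1 : 0 < R - c := by linarith
    have h2 : (R - c) / l ^ j ≤ (R - c) / l ^ (j + 1) := by
      apply div_le_div_of_nonneg_left h1.le (by positivity)
      rw [pow_succ]
      have := pow_pos hl j
      nlinarith
    linarith
  have htop : Tendsto Rj atTop atTop := by
    have h1 : 0 < R - c := by linarith
    have h2 : Tendsto (fun j : ℕ => (R - c) * (l⁻¹) ^ j) atTop atTop := by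
      apply Tendsto.const_mul_atTop h1
      apply tendsto_pow_atTop_atTop_of_one_lt
      exact (one_lt_inv₀ hl).mpr hl1
    have h3 : Rj = fun j : ℕ => c + (R - c) * (l⁻¹) ^ j := by
      funext j
      simp only [hRj, inv_pow, div_eq_mul_inv]
    rw [h3]
    exact tendsto_atTop_add_const_left _ _ h2
  have hlim : Tendsto (fun j => μ {y | Rj j < |y|}) atTop (𝓝 (μ (⋂ j, {y | Rj j < |y|}))) := by
    apply tendsto_measure_iInter_atTop
    · intro j
      exact (measurableSet_lt measurable_const (by fun_prop)).nullMeasurableSet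
    · intro i j hij y hy
      exact lt_of_le_of_lt (hmono hij) hy
    · exact ⟨0, measure_ne_top _ _⟩
  have hempty : (⋂ j, {y | Rj j < |y|}) = (∅ : Set ℝ) := by
    ext y
    simp only [Set.mem_iInter, Set.mem_ofPred_eq, Set.mem_empty_iff_false, iff_false, not_forall,
      not_lt]
    obtain ⟨j, hj⟩ := (htop.eventually_ge_atTop |y|).exists
    exact ⟨j, hj⟩
  rw [hempty, measure_empty] at hlim
  have hlim2 : Tendsto (fun j => μ.real {y | Rj j < |y|}) atTop (𝓝 0) := by
    have := (ENNReal.tendsto_toReal ENNReal.zero_ne_top).comp hlim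
    rw [ENNReal.toReal_zero] at this
    exact this
  have h0 : μ.real {y | R < |y|} ≤ 0 := ge_of_tendsto' hlim2 hle
  have h1 : μ.real {y | R < |y|} = 0 := le_antisymm h0 measureReal_nonneg
  rwa [measureReal_eq_zero_iff] at h1

/-- Balls far from the origin are null. -/
lemma ball_far (hl : 0 < l) (hl1 : l < 1) (h : SS l μ) (x r : ℝ) (hr : r ≤ 1)
    (hx : 2 / (1 - l) < |x|) (hl2 : 1 / 2 < l) :
    μ.real (Metric.closedBall x r) = 0 := by
  have he : 0 < 1 - l := by linarith
  have hR : 1 / (1 - l) < 2 / (1 - l) - 1 := by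
    rw [div_lt_iff₀ he, sub_mul, div_mul_cancel₀ _ he.ne']
    linarith
  have h0 := tail_zero hl hl1 h _ hR
  rw [measureReal_eq_zero_iff]
  apply measure_mono_null _ h0
  intro y hy
  simp only [Metric.mem_closedBall, Real.dist_eq, Set.mem_ofPred_eq] at hy ⊢
  have : |x| ≤ |y| + |y - x| := by
    have h1 : x = y - (y - x) := by ring
    calc |x| = |y - (y - x)| := by rw [← h1]
      _ ≤ |y| + |y - x| := abs_sub _ _
  linarith

lemma ae_bdd (hl : 0 < l) (hl1 : l < 1) (h : SS l μ) :
    ∀ᵐ y ∂μ, |y| ≤ 2 / (1 - l) := by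
  have he : 0 < 1 - l := by linarith
  have hR : 1 / (1 - l) < 2 / (1 - l) := by
    apply div_lt_div_of_pos_right (by norm_num) he
  have h0 := tail_zero hl hl1 h _ hR
  rw [ae_iff]
  simpa [not_le] using h0

end

end Pool.Agent.Work.BCF
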